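import Pool.Agent.Helper236.Tang

/-!
# Checking blocks over GF(7) given by explicit lists of vectors

Helper file for MP_7230e4_co and MP_e1005d_co.
-/

namespace Pool.Agent.X53.Blk

open Set Module Submodule Pool.Agent.Helper236

section General

variable {α F W : Type*} [Field F] [AddCommGroup W] [Module F W]
  {M : Matroid α} {v : α → W}

/-- A hyperplane of a represented simple matroid which meets all lines is modular. -/
theorem isModularHyperplane_of_lines (h : Rep F M v) [M.Finite] (hs : IsSimple M)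
    (φ : W →ₗ[F] F) {H : Set α} (hH : H = {x ∈ M.E | φ (v x) = 0}) (hr : rk M H + 1 = rk M M.E)
    (hl : ∀ e ∈ M.E, ∀ f ∈ M.E, e ≠ f → φ (v e) ≠ 0 → φ (v f) ≠ 0 →
      ∃ x ∈ H, ∃ a b : F, v x = a • v e + b • v f) :
    IsModularHyperplane M H := by
  have hHE : H ⊆ M.E := by rw [hH]; exact fun x hx => hx.1
  have hker : ∀ X ⊆ H, span F (v '' X) ≤ LinearMap.ker φ := by
    intro X hX
    rw [span_le]
    rintro _ ⟨x, hx, rfl⟩
    have := hX hx
    rw [hH] at this
    exact this.2
  have hfd : ∀ X ⊆ M.E, FiniteDimensional F (span F (v '' X)) := fun X hX =>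
    FiniteDimensional.span_of_finite F ((M.ground_finite.subset hX).image v)
  have hflat : M.IsFlat H := by
    rw [Matroid.isFlat_iff_closure_eq]
    apply Set.Subset.antisymm _ (M.subset_closure H hHE)
    intro x hx
    have hxE : x ∈ M.E := M.closure_subset_ground _ hx
    rw [h.mem_closure_iff hHE hxE] at hx
    rw [hH]
    exact ⟨hxE, hker H Subset.rfl hx⟩
  refine ⟨⟨hflat, fun G hG => ?_⟩, hr⟩
  have hGE : G ⊆ M.E := hG.subset_ground
  by_cases hsub : G ⊆ H
  · rw [Set.union_eq_left.2 hsub, Set.inter_eq_right.2 hsub]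
  obtain ⟨e, heG, heH⟩ := Set.not_subset.1 hsub
  have heE := hGE heG
  have hφe : φ (v e) ≠ 0 := by
    intro h0
    apply heH
    rw [hH]
    exact ⟨heE, h0⟩
  have hHG : H ∩ G ⊆ M.E := Set.inter_subset_left.trans hHE
  have hUE : H ∪ G ⊆ M.E := Set.union_subset hHE hGE
  have hfdHG := hfd _ hHG
  have hfdG := hfd _ hGE
  have hfdH := hfd _ hHE
  have hfdE := hfd _ (Subset.rfl : M.E ⊆ M.E)
  have hfdU := hfd _ hUE
  -- rank of `G`
  have hle : span F (v '' G) ≤ span F {v e} ⊔ span F (v '' (H ∩ G)) := by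
    rw [span_le]
    rintro _ ⟨f, hfG, rfl⟩
    by_cases hfH : f ∈ H
    · exact Submodule.mem_sup_right (subset_span (mem_image_of_mem v ⟨hfH, hfG⟩))
    by_cases hfe : f = e
    · rw [hfe]
      exact Submodule.mem_sup_left (subset_span rfl)
    have hφf : φ (v f) ≠ 0 := by
      intro h0
      apply hfH
      rw [hH]
      exact ⟨hGE hfG, h0⟩
    obtain ⟨x, hxH, a, b, hab⟩ := hl e heE f (hGE hfG) (Ne.symm hfe) hφe hφf
    have hxE := hHE hxH
    have hxG : x ∈ G := by
      have : x ∈ M.closure G := (h.mem_closure_iff hGE hxE).2 (by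
        rw [hab]
        exact add_mem (smul_mem _ _ (subset_span (mem_image_of_mem v heG)))
          (smul_mem _ _ (subset_span (mem_image_of_mem v hfG))))
      rwa [hG.closure] at this
    have hφx : φ (v x) = 0 := by
      have := hxH
      rw [hH] at this
      exact this.2
    have hb : b ≠ 0 := by
      intro hb
      rw [hb, zero_smul, add_zero] at hab
      rw [hab, map_smul, smul_eq_mul] at hφx
      rcases mul_eq_zero.1 hφx with ha | h0
      · rw [ha, zero_smul] at hab
        exact h.ne_zero hs hxE hab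
      · exact hφe h0
    have hvf : v f = (-(b⁻¹ * a)) • v e + b⁻¹ • v x := by
      rw [hab, smul_add, smul_smul, smul_smul, inv_mul_cancel₀ hb, one_smul, neg_smul]
      abel
    rw [hvf]
    exact add_mem (Submodule.mem_sup_left (smul_mem _ _ (subset_span rfl)))
      (Submodule.mem_sup_right (smul_mem _ _ (subset_span (mem_image_of_mem v ⟨hxH, hxG⟩))))
  have h1 : finrank F (span F (v '' G)) ≤ finrank F (span F (v '' (H ∩ G))) + 1 := by
    have h2 := Submodule.finrank_mono hle
    have h3 := Submodule.finrank_add_le_finrank_add_finrank (span F {v e})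
      (span F (v '' (H ∩ G)))
    have h4 := finrank_span_singleton (K := F) (h.ne_zero hs heE)
    omega
  have h2 : finrank F (span F (v '' (H ∩ G))) < finrank F (span F (v '' G)) := by
    apply Submodule.finrank_lt_finrank_of_lt
    refine lt_of_le_of_ne (span_mono (image_mono Set.inter_subset_right)) fun heq => ?_
    have : v e ∈ span F (v '' (H ∩ G)) := by
      rw [heq]
      exact subset_span (mem_image_of_mem v heG)
    exact hφe (hker _ Set.inter_subset_left this)
  have h3 : finrank F (span F (v '' H)) < finrank F (span F (v '' (H ∪ G))) := by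
    apply Submodule.finrank_lt_finrank_of_lt
    refine lt_of_le_of_ne (span_mono (image_mono Set.subset_union_left)) fun heq => ?_
    have : v e ∈ span F (v '' H) := by
      rw [heq]
      exact subset_span (mem_image_of_mem v (Or.inr heG))
    exact hφe (hker _ Subset.rfl this)
  have h4 : finrank F (span F (v '' (H ∪ G))) ≤ finrank F (span F (v '' M.E)) :=
    Submodule.finrank_mono (span_mono (image_mono hUE))
  rw [h.rk_eq hHE, h.rk_eq Subset.rfl] at hr
  rw [h.rk_eq hHE, h.rk_eq hGE, h.rk_eq hUE, h.rk_eq hHG]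
  omega

end General

/-! ### Vectors over `ZMod 7` given by natural numbers -/

section Seven

instance : Fact (Nat.Prime 7) := ⟨by norm_num⟩

variable {N n : ℕ}

/-- The vectors with given entries. -/
def vv (vec : ℕ → ℕ → ℕ) (i : Fin N) : Fin n → ZMod 7 := fun j => (vec i j : ZMod 7)

/-- The linear functional with given coefficients. -/
def fn (n : ℕ) (a : ℕ → ℕ) : (Fin n → ZMod 7) →ₗ[ZMod 7] ZMod 7 :=
  ∑ j : Fin n, (a j : ZMod 7) • LinearMap.proj j

/-- The value of a functional, as a natural number. -/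
def dot (n : ℕ) (a b : ℕ → ℕ) : ℕ := Nat.rec 0 (fun j s => s + a j * b j) n

theorem dot_eq (n : ℕ) (a b : ℕ → ℕ) : dot n a b = ∑ j : Fin n, a j * b j := by
  rw [Fin.sum_univ_eq_sum_range (fun j => a j * b j) n]
  induction n with
  | zero => rfl
  | succ n ih =>
    rw [Finset.sum_range_succ, ← ih]
    rfl

theorem fn_vv (a : ℕ → ℕ) (vec : ℕ → ℕ → ℕ) (i : Fin N) :
    fn n a (vv vec i) = ((dot n a (vec i) : ℕ) : ZMod 7) := by
  rw [fn, dot_eq]
  simp [vv, LinearMap.sum_apply]

theorem fn_vv_eq_zero_iff (a : ℕ → ℕ) (vec : ℕ → ℕ → ℕ) (i : Fin N) :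
    fn n a (vv vec i) = 0 ↔ dot n a (vec i) % 7 = 0 := by
  rw [fn_vv, ZMod.natCast_eq_zero_iff, Nat.dvd_iff_mod_eq_zero]

/-- Every functional is of this form. -/
theorem exists_fn (f : (Fin n → ZMod 7) →ₗ[ZMod 7] ZMod 7) :
    ∃ a : ℕ → ℕ, (∀ j, a j < 7) ∧ f = fn n a := by
  refine ⟨fun j => if h : j < n then (f (Pi.single ⟨j, h⟩ 1)).val else 0, ?_, ?_⟩
  · intro j
    by_cases h : j < n
    · simp only [h, dif_pos]
      exact ZMod.val_lt _
    · simp [h]
  · apply LinearMap.pi_ext'
    intro j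
    ext
    simp only [fn, LinearMap.comp_apply, LinearMap.coe_single, LinearMap.sum_apply,
      LinearMap.smul_apply, LinearMap.proj_apply, smul_eq_mul]
    rw [Finset.sum_eq_single j]
    · simp
    · intro k _ hk
      simp [hk]
    · simp

/-- `x` is on the line through `e` and `f`. -/
def onLine (n : ℕ) (vec : ℕ → ℕ → ℕ) (e f x : ℕ) : Bool :=
  (List.range 7).any fun a => (List.range 7).any fun b => (List.range n).all fun j =>
    (a * vec e j + b * vec f j) % 7 == vec x j % 7

theorem natCast_eq_of_mod {a b : ℕ} (h : a % 7 = b % 7) : (a : ZMod 7) = b := by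
  rw [ZMod.natCast_eq_natCast_iff]
  exact h

theorem onLine_iff {vec : ℕ → ℕ → ℕ} {e f x : Fin N} :
    onLine n vec e f x = true ↔
      ∃ a b : ZMod 7, (vv vec x : Fin n → ZMod 7) = a • vv vec e + b • vv vec f := by
  simp only [onLine, List.any_eq_true, List.mem_range, List.all_eq_true, beq_iff_eq]
  constructor
  · rintro ⟨a, -, b, -, hab⟩
    refine ⟨a, b, ?_⟩
    ext j
    have := natCast_eq_of_mod (hab j j.2)
    simp only [vv, Pi.add_apply, Pi.smul_apply, smul_eq_mul]
    rw [← this]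
    push_cast
    ring
  · rintro ⟨a, b, hab⟩
    refine ⟨a.val, ZMod.val_lt _, b.val, ZMod.val_lt _, fun j hj => ?_⟩
    have h1 := congrFun hab ⟨j, hj⟩
    simp only [vv, Pi.add_apply, Pi.smul_apply, smul_eq_mul] at h1
    have h2 : ((a.val * vec e j + b.val * vec f j : ℕ) : ZMod 7) = ((vec x j : ℕ) : ZMod 7) := by
      rw [h1]
      push_cast
      rw [ZMod.natCast_zmod_val, ZMod.natCast_zmod_val]
    exact (ZMod.natCast_eq_natCast_iff _ _ _).1 h2

/-! ### Boolean checks -/

/-- Decoding of the entries of the vectors. -/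
def dec (T n x j : ℕ) : ℕ := T / 7 ^ (n * x + j) % 7

/-- Decoding of the coefficients of a functional. -/
def cf (c j : ℕ) : ℕ := c / 7 ^ j % 7

/-- The functional with code `c` vanishes at the point `x`. -/
def zz (n : ℕ) (vec : ℕ → ℕ → ℕ) (c x : ℕ) : Bool := dot n (cf c) (vec x) % 7 == 0

/-- `y` is a multiple of `x`. -/
def onPoint (n : ℕ) (vec : ℕ → ℕ → ℕ) (x y : ℕ) : Bool :=
  (List.range 7).any fun a => (List.range n).all fun j => (a * vec x j) % 7 == vec y j % 7

/-- The points are nonzero and pairwise not proportional. -/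
def chkSimple (N n : ℕ) (vec : ℕ → ℕ → ℕ) : Bool :=
  (List.range N).all fun x => (List.range n).any (fun j => vec x j % 7 != 0) &&
    (List.range N).all fun y => x == y || !onPoint n vec x y

/-- The first seven points are affine, the others are the directions they determine. -/
def chkDiff (N n : ℕ) (vec : ℕ → ℕ → ℕ) : Bool :=
  ((List.range 7).all fun s => vec s 0 == 1) &&
  ((List.range N).all fun x => decide (x < 7) || vec x 0 == 0) &&
  ((List.range 7).all fun s => (List.range 7).all fun t => s == t ||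
    (List.range N).any fun x => decide (7 ≤ x) && (List.range 7).any fun c =>
      (List.range n).all fun j => (c * vec s j + (7 - c) * vec t j) % 7 == vec x j % 7)

/-- Combinations of two points give the unit vectors. -/
def chkUnit (N n : ℕ) (vec : ℕ → ℕ → ℕ) (w : List (ℕ × ℕ × ℕ × ℕ)) : Bool :=
  (List.range n).all fun j => w.any fun q => decide (q.1 < N) && decide (q.2.1 < N) &&
    (List.range n).all fun i => (q.2.2.1 * vec q.1 i + q.2.2.2 * vec q.2.1 i) % 7 ==
      if i = j then 1 else 0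

/-- Every point is the only zero of some functional. -/
def chkSingle (N n : ℕ) (vec : ℕ → ℕ → ℕ) (w : List ℕ) : Bool :=
  (List.range N).all fun x => w.any fun c => zz n vec c x &&
    (List.range N).all fun y => x == y || !zz n vec c y

/-- Every line is the zero set of some functional. -/
def chkLine (N n : ℕ) (vec : ℕ → ℕ → ℕ) (w : List ℕ) : Bool :=
  (List.range N).all fun x => (List.range N).all fun y => x == y || w.any fun c =>
    zz n vec c x && zz n vec c y &&
      (List.range N).all fun u => !zz n vec c u || onLine n vec x y u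

section Consequences

variable {vec : ℕ → ℕ → ℕ}

/-- The matroid of the vectors. -/
noncomputable def mat (N n : ℕ) (vec : ℕ → ℕ → ℕ) : Matroid (Fin N) :=
  linMatroid (ZMod 7) (vv vec : Fin N → (Fin n → ZMod 7)) Set.univ Set.finite_univ

theorem mat_E (N n : ℕ) (vec : ℕ → ℕ → ℕ) : (mat N n vec).E = Set.univ := rfl

theorem mat_rep (N n : ℕ) (vec : ℕ → ℕ → ℕ) :
    Rep (ZMod 7) (mat N n vec) (vv vec : Fin N → (Fin n → ZMod 7)) := linMatroid_rep _ _ _

instance (N n : ℕ) (vec : ℕ → ℕ → ℕ) : (mat N n vec).Finite := ⟨Set.finite_univ⟩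

theorem ne_zero_of_chk (h : chkSimple N n vec = true) (x : Fin N) :
    (vv vec x : Fin n → ZMod 7) ≠ 0 := by
  simp only [chkSimple, List.all_eq_true, List.mem_range, Bool.and_eq_true, List.any_eq_true,
    bne_iff_ne, ne_eq] at h
  obtain ⟨⟨j, hj, hj'⟩, -⟩ := h x x.2
  intro h0
  have := congrFun h0 ⟨j, hj⟩
  simp only [vv, Pi.zero_apply] at this
  rw [ZMod.natCast_eq_zero_iff] at this
  exact hj' (Nat.mod_eq_zero_of_dvd this)

theorem onPoint_of {x y : Fin N} {c : ZMod 7}
    (h : (vv vec y : Fin n → ZMod 7) = c • vv vec x) : onPoint n vec x y = true := by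
  simp only [onPoint, List.any_eq_true, List.mem_range, List.all_eq_true, beq_iff_eq]
  refine ⟨c.val, ZMod.val_lt _, fun j hj => ?_⟩
  have h1 := congrFun h ⟨j, hj⟩
  simp only [vv, Pi.smul_apply, smul_eq_mul] at h1
  have h2 : ((c.val * vec x j : ℕ) : ZMod 7) = ((vec y j : ℕ) : ZMod 7) := by
    rw [h1]
    push_cast
    rw [ZMod.natCast_zmod_val]
  exact (ZMod.natCast_eq_natCast_iff _ _ _).1 h2

theorem isSimple_of_chk (h : chkSimple N n vec = true) : IsSimple (mat N n vec) := by
  have h' := h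
  simp only [chkSimple, List.all_eq_true, List.mem_range, Bool.and_eq_true, Bool.or_eq_true,
    beq_iff_eq, Bool.not_eq_true'] at h'
  intro e _ f _
  rw [mat_rep N n vec _ (Set.subset_univ _)]
  by_cases hef : e = f
  · subst hef
    rw [Set.pair_eq_singleton, linearIndepOn_singleton_iff]
    exact ne_zero_of_chk h e
  · apply LinearIndepOn.insert
    · rw [linearIndepOn_singleton_iff]
      exact ne_zero_of_chk h f
    · rw [Set.image_singleton, Submodule.mem_span_singleton]
      rintro ⟨c, hc⟩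
      have h1 := onPoint_of (N := N) (n := n) (vec := vec) (x := f) (y := e) hc.symm
      rcases (h' f f.2).2 e e.2 with h2 | h2
      · exact hef (Fin.ext h2.symm)
      · rw [h1] at h2
        exact absurd h2 (by simp)

theorem diff_of_chk (h : chkDiff N n vec = true) (hN : 7 ≤ N) (s t : Fin 7) (hst : s ≠ t) :
    ∃ x : Fin N, 7 ≤ (x : ℕ) ∧ ∃ c : ZMod 7, (vv vec x : Fin n → ZMod 7) =
      c • vv vec (⟨s, by omega⟩ : Fin N) - c • vv vec (⟨t, by omega⟩ : Fin N) := by
  simp only [chkDiff, List.all_eq_true, List.mem_range, Bool.and_eq_true, Bool.or_eq_true,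
    beq_iff_eq, List.any_eq_true, decide_eq_true_eq] at h
  rcases h.2 s s.2 t t.2 with h1 | ⟨x, hx, hx7, c, hc, hj⟩
  · exact absurd (Fin.ext h1) hst
  · refine ⟨⟨x, hx⟩, hx7, c, ?_⟩
    ext j
    have h2 := natCast_eq_of_mod (hj j j.2)
    simp only [vv, Pi.sub_apply, Pi.smul_apply, smul_eq_mul]
    rw [← h2]
    push_cast [Nat.cast_sub hc.le]
    have h7 : (7 : ZMod 7) = 0 := by decide
    rw [h7]
    ring

theorem affine_of_chk (h : chkDiff N n vec = true) (hn : 0 < n) (x : Fin N) :
    (vv vec x : Fin n → ZMod 7) ⟨0, hn⟩ = if (x : ℕ) < 7 then 1 else 0 := by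
  simp only [chkDiff, List.all_eq_true, List.mem_range, Bool.and_eq_true, Bool.or_eq_true,
    beq_iff_eq, List.any_eq_true, decide_eq_true_eq] at h
  by_cases hx : (x : ℕ) < 7
  · rw [if_pos hx]
    simp [vv, h.1.1 x hx]
  · rw [if_neg hx]
    rcases h.1.2 x x.2 with h1 | h1
    · exact absurd h1 hx
    · simp [vv, h1]

/-- Every functional vanishes at some point. -/
theorem exists_zero_of_chk (h : chkDiff N n vec = true) (hN : 7 ≤ N)
    (f : (Fin n → ZMod 7) →ₗ[ZMod 7] ZMod 7) : ∃ x : Fin N, f (vv vec x) = 0 := by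
  by_cases hinj : Function.Injective fun s : Fin 7 => f (vv vec (⟨s, by omega⟩ : Fin N))
  · have hsurj : Function.Surjective fun s : Fin 7 => f (vv vec (⟨s, by omega⟩ : Fin N)) := by
      refine ((Fintype.bijective_iff_injective_and_card _).2 ⟨hinj, ?_⟩).2
      rw [Fintype.card_fin, ZMod.card]
    obtain ⟨s, hs⟩ := hsurj 0
    exact ⟨_, hs⟩
  · rw [Function.Injective] at hinj
    push Not at hinj
    obtain ⟨s, t, hst, hne⟩ := hinj
    obtain ⟨x, -, c, hc⟩ := diff_of_chk (n := n) h hN s t hne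
    refine ⟨x, ?_⟩
    rw [hc, map_sub, map_smul, map_smul, hst, sub_self]

theorem lt_critExp_of_chk (h : chkDiff N n vec = true) (hN : 7 ≤ N) :
    ((1 : ℕ) : ℕ∞) < critExp (mat N n vec) 7 := by
  have hcard : Nat.card (ZMod 7) = 7 := by simp
  have := lt_critExp_iff (mat_rep N n vec) 1
  rw [hcard] at this
  rw [this]
  intro f
  obtain ⟨x, hx⟩ := exists_zero_of_chk (n := n) h hN ((LinearMap.proj 0).comp f)
  refine ⟨x, Set.mem_univ _, ?_⟩
  ext i
  rw [Subsingleton.elim i 0]
  exact hx

theorem span_of_chk {w : List (ℕ × ℕ × ℕ × ℕ)} (h : chkUnit N n vec w = true) :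
    span (ZMod 7) ((vv vec : Fin N → (Fin n → ZMod 7)) '' Set.univ) = ⊤ := by
  simp only [chkUnit, List.all_eq_true, List.mem_range, Bool.and_eq_true, beq_iff_eq,
    List.any_eq_true, decide_eq_true_eq] at h
  rw [eq_top_iff]
  rintro u -
  rw [pi_eq_sum_univ' u]
  refine Submodule.sum_mem _ fun j _ => Submodule.smul_mem _ _ ?_
  obtain ⟨⟨x, y, a, b⟩, -, ⟨hx, hy⟩, hab⟩ := h j j.2
  simp only at hx hy hab
  have h1 : (Pi.single j 1 : Fin n → ZMod 7) =
      (a : ZMod 7) • (vv vec (⟨x, hx⟩ : Fin N) : Fin n → ZMod 7) +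
        (b : ZMod 7) • vv vec (⟨y, hy⟩ : Fin N) := by
    ext i
    have h2 := hab i i.2
    simp only [vv, Pi.add_apply, Pi.smul_apply, smul_eq_mul]
    have h3 : ((a * vec x i + b * vec y i : ℕ) : ZMod 7) =
        (((if (i : ℕ) = j then 1 else 0 : ℕ)) : ZMod 7) := by
      apply natCast_eq_of_mod
      rw [h2]
      split_ifs <;> rfl
    push_cast at h3
    rw [h3, Pi.single_apply]
    simp only [Fin.ext_iff]
  rw [h1]
  exact add_mem (smul_mem _ _ (subset_span (mem_image_of_mem _ (mem_univ _))))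
    (smul_mem _ _ (subset_span (mem_image_of_mem _ (mem_univ _))))

theorem rk_ground_of_chk {w : List (ℕ × ℕ × ℕ × ℕ)} (h : chkUnit N n vec w = true) :
    rk (mat N n vec) (mat N n vec).E = n := by
  rw [(mat_rep N n vec).rk_eq Subset.rfl, mat_E, span_of_chk h, finrank_top]
  simp

theorem rk_le (X : Set (Fin N)) : rk (mat N n vec) X ≤ n := by
  rw [(mat_rep N n vec).rk_eq (Set.subset_univ X)]
  refine (Submodule.finrank_le _).trans ?_
  simp

/-- The first seven points are off a modular hyperplane which contains all the others. -/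
theorem isModularHyperplane_of_chk {w : List (ℕ × ℕ × ℕ × ℕ)} (hs : chkSimple N n vec = true)
    (hd : chkDiff N n vec = true) (hu : chkUnit N n vec w = true) (hN : 7 ≤ N) (hn : 0 < n) :
    IsModularHyperplane (mat N n vec) {x | 7 ≤ (x : ℕ)} := by
  have hrep := mat_rep N n vec
  have hsim := isSimple_of_chk hs
  let φ : (Fin n → ZMod 7) →ₗ[ZMod 7] ZMod 7 := LinearMap.proj ⟨0, hn⟩
  have hφ : ∀ x : Fin N, φ (vv vec x) = if (x : ℕ) < 7 then 1 else 0 :=
    fun x => affine_of_chk hd hn x
  have hH : {x : Fin N | 7 ≤ (x : ℕ)} = {x ∈ (mat N n vec).E | φ (vv vec x) = 0} := by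
    ext x
    simp only [Set.mem_ofPred_eq, mat_E, Set.mem_univ, true_and, hφ]
    by_cases hx : (x : ℕ) < 7
    · rw [if_pos hx]
      constructor
      · intro h; omega
      · intro h; exact absurd h one_ne_zero
    · rw [if_neg hx]
      constructor
      · intro _; rfl
      · intro _; omega
  refine isModularHyperplane_of_lines hrep hsim φ hH ?_ ?_
  · rw [hrep.rk_eq (Set.subset_univ _), hrep.rk_eq (Set.subset_univ _), mat_E]
    set S := span (ZMod 7) ((vv vec : Fin N → (Fin n → ZMod 7)) '' {x | 7 ≤ (x : ℕ)}) with hS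
    have hker : S ≤ LinearMap.ker φ := by
      rw [hS, span_le]
      rintro _ ⟨x, hx, rfl⟩
      rw [SetLike.mem_coe, LinearMap.mem_ker, hφ, if_neg]
      exact not_lt.2 hx
    let x0 : Fin N := ⟨0, by omega⟩
    have hx0 : (vv vec x0 : Fin n → ZMod 7) ∉ S := by
      intro h
      have := hker h
      rw [LinearMap.mem_ker, hφ, if_pos (by simp [x0])] at this
      exact one_ne_zero this
    have hle : span (ZMod 7) ((vv vec : Fin N → (Fin n → ZMod 7)) '' Set.univ) ≤
        span (ZMod 7) {(vv vec x0 : Fin n → ZMod 7)} ⊔ S := by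
      rw [span_le]
      rintro _ ⟨x, -, rfl⟩
      by_cases hx : 7 ≤ (x : ℕ)
      · exact Submodule.mem_sup_right (subset_span (mem_image_of_mem _ hx))
      · by_cases hx0' : (x : ℕ) = 0
        · have : x = x0 := Fin.ext hx0'
          rw [this]
          exact Submodule.mem_sup_left (subset_span rfl)
        · obtain ⟨y, hy, c, hc⟩ := diff_of_chk (n := n) hd hN ⟨x, by omega⟩ ⟨0, by norm_num⟩
            (fun h => hx0' (congrArg Fin.val h))
          have hc0 : c ≠ 0 := by
            rintro rfl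
            rw [zero_smul, zero_smul, sub_zero] at hc
            exact ne_zero_of_chk hs y hc
          have hx' : (vv vec x : Fin n → ZMod 7) = vv vec x0 + c⁻¹ • vv vec y := by
            rw [hc, smul_sub, smul_smul, smul_smul, inv_mul_cancel₀ hc0, one_smul, one_smul]
            simp [x0]
          rw [hx']
          exact add_mem (Submodule.mem_sup_left (subset_span rfl))
            (Submodule.mem_sup_right (smul_mem _ _ (subset_span (mem_image_of_mem _ hy))))
    have h1 := Submodule.finrank_mono hle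
    have h2 := Submodule.finrank_add_le_finrank_add_finrank
      (span (ZMod 7) {(vv vec x0 : Fin n → ZMod 7)}) S
    have h3 := finrank_span_singleton (K := ZMod 7) (ne_zero_of_chk hs x0)
    have h4 : finrank (ZMod 7) S <
        finrank (ZMod 7) (span (ZMod 7) ((vv vec : Fin N → (Fin n → ZMod 7)) '' Set.univ)) := by
      apply Submodule.finrank_lt_finrank_of_lt
      refine lt_of_le_of_ne (span_mono (image_mono (Set.subset_univ _))) fun heq => hx0 ?_
      rw [heq]
      exact subset_span (mem_image_of_mem _ (Set.mem_univ _))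
    omega
  · intro e _ f _ hef he hf
    rw [hφ] at he hf
    have he7 : (e : ℕ) < 7 := by
      by_contra h
      rw [if_neg h] at he
      exact he rfl
    have hf7 : (f : ℕ) < 7 := by
      by_contra h
      rw [if_neg h] at hf
      exact hf rfl
    obtain ⟨x, hx, c, hc⟩ := diff_of_chk (n := n) hd hN ⟨e, he7⟩ ⟨f, hf7⟩
      (fun h => hef (Fin.ext (congrArg (fun z : Fin 7 => (z : ℕ)) h)))
    refine ⟨x, hx, c, -c, ?_⟩
    rw [hc, neg_smul, sub_eq_add_neg]

theorem zz_iff {c : ℕ} {x : Fin N} :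
    zz n vec c x = true ↔ fn n (cf c) (vv vec x) = 0 := by
  rw [fn_vv_eq_zero_iff, zz, beq_iff_eq]

theorem single_of_chk {w : List ℕ} (h : chkSingle N n vec w = true) (x : Fin N) :
    ∃ f : (Fin n → ZMod 7) →ₗ[ZMod 7] ZMod 7, f (vv vec x) = 0 ∧
      ∀ y : Fin N, y ≠ x → f (vv vec y) ≠ 0 := by
  simp only [chkSingle, List.all_eq_true, List.mem_range, Bool.and_eq_true, Bool.or_eq_true,
    beq_iff_eq, List.any_eq_true, Bool.not_eq_true'] at h
  obtain ⟨c, -, hcx, hc⟩ := h x x.2
  refine ⟨fn n (cf c), zz_iff.1 hcx, fun y hy h0 => ?_⟩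
  rcases hc y y.2 with h1 | h1
  · exact hy (Fin.ext h1.symm)
  · rw [zz_iff.2 h0] at h1
    exact absurd h1 (by simp)

theorem line_of_chk {w : List ℕ} (h : chkLine N n vec w = true) (x y : Fin N) (hxy : x ≠ y) :
    ∃ c ∈ w, fn n (cf c) (vv vec x) = 0 ∧ fn n (cf c) (vv vec y) = 0 ∧
      ∀ u : Fin N, fn n (cf c) (vv vec u) = 0 ↔
        ∃ a b : ZMod 7, (vv vec u : Fin n → ZMod 7) = a • vv vec x + b • vv vec y := by
  simp only [chkLine, List.all_eq_true, List.mem_range, Bool.and_eq_true, Bool.or_eq_true,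
    beq_iff_eq, List.any_eq_true, Bool.not_eq_true'] at h
  rcases h x x.2 y y.2 with h1 | ⟨c, hcw, ⟨hcx, hcy⟩, hc⟩
  · exact absurd (Fin.ext h1) hxy
  · rw [zz_iff] at hcx hcy
    refine ⟨c, hcw, hcx, hcy, fun u => ⟨fun h0 => ?_, ?_⟩⟩
    · rcases hc u u.2 with h1 | h1
      · rw [zz_iff.2 h0] at h1
        exact absurd h1 (by simp)
      · exact onLine_iff.1 h1
    · rintro ⟨a, b, hab⟩
      rw [hab, map_add, map_smul, map_smul, hcx, hcy, smul_zero, smul_zero, add_zero]

theorem mem_closure_pair (x y u : Fin N) :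
    u ∈ (mat N n vec).closure {x, y} ↔
      ∃ a b : ZMod 7, (vv vec u : Fin n → ZMod 7) = a • vv vec x + b • vv vec y := by
  rw [(mat_rep N n vec).mem_closure_iff (Set.subset_univ _) (Set.mem_univ _), Set.image_pair,
    Submodule.mem_span_pair]
  constructor
  · rintro ⟨a, b, h⟩
    exact ⟨a, b, h.symm⟩
  · rintro ⟨a, b, h⟩
    exact ⟨a, b, h.symm⟩

/-- In rank four every nonempty flat is the zero set of a functional. -/
theorem flat_functional {w1 w2 : List ℕ} {w : List (ℕ × ℕ × ℕ × ℕ)}
    (hs : chkSimple N 4 vec = true) (hu : chkUnit N 4 vec w = true)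
    (h1 : chkSingle N 4 vec w1 = true) (h2 : chkLine N 4 vec w2 = true)
    (G : Set (Fin N)) (hG : (mat N 4 vec).IsFlat G) (hGne : G.Nonempty) :
    ∃ f : (Fin 4 → ZMod 7) →ₗ[ZMod 7] ZMod 7, (∀ x ∈ G, f (vv vec x) = 0) ∧
      ∀ x : Fin N, x ∉ G → f (vv vec x) ≠ 0 := by
  have hrep := mat_rep N 4 vec
  have hsim := isSimple_of_chk hs
  obtain ⟨e, he⟩ := hGne
  by_cases hsing : G = {e}
  · obtain ⟨f, hf1, hf2⟩ := single_of_chk h1 e
    refine ⟨f, ?_, ?_⟩
    · intro x hx
      rw [hsing] at hx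
      rw [hx]
      exact hf1
    · intro x hx
      refine hf2 x ?_
      rintro rfl
      exact hx he
  obtain ⟨f, hf, hfe⟩ : ∃ f ∈ G, f ≠ e := by
    by_contra hcon
    push Not at hcon
    exact hsing (Set.eq_singleton_iff_unique_mem.2 ⟨he, hcon⟩)
  have hefG : ({e, f} : Set (Fin N)) ⊆ G := by
    rintro x (rfl | rfl)
    · exact he
    · exact hf
  have hclG : (mat N 4 vec).closure {e, f} ⊆ G := by
    rw [← hG.closure]
    exact (mat N 4 vec).closure_subset_closure hefG
  by_cases hline : G ⊆ (mat N 4 vec).closure {e, f}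
  · obtain ⟨c, -, -, -, hc⟩ := line_of_chk h2 e f (Ne.symm hfe)
    refine ⟨fn 4 (cf c), ?_, ?_⟩
    · intro x hx
      exact (hc x).2 ((mem_closure_pair e f x).1 (hline hx))
    · intro x hx h0
      exact hx (hclG ((mem_closure_pair e f x).2 ((hc x).1 h0)))
  obtain ⟨x, hxG, hx⟩ := Set.not_subset.1 hline
  -- rank at least three
  have hind : (mat N 4 vec).Indep {e, f} := hsim e (Set.mem_univ _) f (Set.mem_univ _)
  have hind3 : (mat N 4 vec).Indep (insert x {e, f}) :=
    ((hind.notMem_closure_iff (Set.mem_univ _)).1 hx).1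
  have hxne : x ∉ ({e, f} : Set (Fin N)) := ((hind.notMem_closure_iff (Set.mem_univ _)).1 hx).2
  have hcard : (insert x {e, f} : Set (Fin N)).ncard = 3 := by
    rw [Set.ncard_insert_of_notMem hxne (Set.toFinite _), Set.ncard_pair (Ne.symm hfe)]
  have hrk3 : 3 ≤ rk (mat N 4 vec) G := by
    rw [hrep.rk_eq (Set.subset_univ _), ← hcard,
      ← finrank_span_of_linearIndepOn ((hrep _ (Set.subset_univ _)).1 hind3) (Set.toFinite _)]
    apply Submodule.finrank_mono
    apply span_mono
    apply image_mono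
    rintro y (rfl | hy)
    · exact hxG
    · exact hefG hy
  have hE := rk_ground_of_chk hu
  have hle : rk (mat N 4 vec) G ≤ 4 := rk_le G
  rcases (by omega : rk (mat N 4 vec) G = 3 ∨ rk (mat N 4 vec) G = 4) with h3 | h4
  · obtain ⟨f, hf1, hf2⟩ := exists_functional hrep hG (by omega)
    exact ⟨f, hf1, fun y hy => hf2 y (Set.mem_univ _) hy⟩
  · have hall : ∀ y, y ∈ G := by
      intro y
      have h5 : span (ZMod 7) ((vv vec : Fin N → (Fin 4 → ZMod 7)) '' G) = ⊤ := by
        apply Submodule.eq_top_of_finrank_eq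
        rw [← hrep.rk_eq (Set.subset_univ _), h4]
        simp
      have h6 : y ∈ (mat N 4 vec).closure G :=
        (hrep.mem_closure_iff (Set.subset_univ _) (Set.mem_univ _)).2 (by rw [h5]; trivial)
      rwa [hG.closure] at h6
    exact ⟨0, by simp, fun y hy => absurd (hall y) hy⟩

/-- Data of planes with three independent points. -/
def chkPlane (N n : ℕ) (vec : ℕ → ℕ → ℕ) (pl : List (ℕ × ℕ × ℕ × ℕ)) : Bool :=
  pl.all fun q => decide (q.2.1 < N) && decide (q.2.2.1 < N) && decide (q.2.2.2 < N) &&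
    (q.2.1 != q.2.2.1) && zz n vec q.1 q.2.1 && zz n vec q.1 q.2.2.1 && zz n vec q.1 q.2.2.2 &&
    !onLine n vec q.2.1 q.2.2.1 q.2.2.2

/-- Every line is disjoint from some of the planes. -/
def chkDisj (N n : ℕ) (vec : ℕ → ℕ → ℕ) (w : List ℕ) (pl : List (ℕ × ℕ × ℕ × ℕ)) : Bool :=
  w.all fun c => pl.any fun q => (List.range N).all fun x => !zz n vec c x || !zz n vec q.1 x

/-- No line is modular. -/
theorem not_modular_line {w2 : List ℕ} {pl : List (ℕ × ℕ × ℕ × ℕ)}
    (hs : chkSimple N 4 vec = true)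
    (h2 : chkLine N 4 vec w2 = true) (hp : chkPlane N 4 vec pl = true)
    (hd : chkDisj N 4 vec w2 pl = true) (L : Set (Fin N)) (hL : IsModularFlat (mat N 4 vec) L) :
    rk (mat N 4 vec) L ≠ 2 := by
  intro hr
  have hrep := mat_rep N 4 vec
  have hsim := isSimple_of_chk hs
  obtain ⟨I, hI⟩ := (mat N 4 vec).exists_isBasis L hL.1.subset_ground
  have hIcard : I.ncard = 2 := by
    rw [rk, ← hI.encard_eq_eRk] at hr
    exact hr
  obtain ⟨e, f, hef, rfl⟩ := Set.ncard_eq_two.1 hIcard
  have hcl : (mat N 4 vec).closure {e, f} = L := by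
    rw [hI.closure_eq_closure, hL.1.closure]
  obtain ⟨c, hcw, hce, hcf, hc⟩ := line_of_chk h2 e f hef
  have hLc : ∀ x, x ∈ L ↔ fn 4 (cf c) (vv vec x) = 0 := by
    intro x
    rw [← hcl, mem_closure_pair, ← hc]
  simp only [chkDisj, List.all_eq_true, List.mem_range, Bool.or_eq_true,
    List.any_eq_true, Bool.not_eq_true'] at hd
  obtain ⟨⟨d, x, y, z⟩, hdp, hdd⟩ := hd c hcw
  simp only [chkPlane, List.all_eq_true, Bool.and_eq_true, Bool.not_eq_true',
    decide_eq_true_eq, bne_iff_ne, ne_eq] at hp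
  obtain ⟨⟨⟨⟨⟨⟨⟨hx, hy⟩, hz⟩, hxy⟩, hzx⟩, hzy⟩, hzz⟩, hnl⟩ := hp _ hdp
  simp only at hdd hx hy hz hxy hzx hzy hzz hnl
  let G : Set (Fin N) := {u | fn 4 (cf d) (vv vec u) = 0}
  have hGflat : (mat N 4 vec).IsFlat G := by
    rw [Matroid.isFlat_iff_closure_eq]
    apply Set.Subset.antisymm _ ((mat N 4 vec).subset_closure G (Set.subset_univ _))
    intro u hu
    rw [hrep.mem_closure_iff (Set.subset_univ _) (Set.mem_univ _)] at hu
    have hker : span (ZMod 7) ((vv vec : Fin N → (Fin 4 → ZMod 7)) '' G) ≤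
        LinearMap.ker (fn 4 (cf d)) := by
      rw [span_le]
      rintro _ ⟨u, hu, rfl⟩
      exact hu
    exact hker hu
  have hdisj : L ∩ G = ∅ := by
    rw [Set.eq_empty_iff_forall_notMem]
    rintro u ⟨huL, huG⟩
    rcases hdd u u.2 with h | h
    · rw [zz_iff.2 ((hLc u).1 huL)] at h
      exact absurd h (by simp)
    · rw [zz_iff.2 huG] at h
      exact absurd h (by simp)
  have hmod := hL.2 G hGflat
  rw [hdisj, hr] at hmod
  have h0 : rk (mat N 4 vec) ∅ = 0 := by simp [rk]
  have h4 : rk (mat N 4 vec) (L ∪ G) ≤ 4 := rk_le _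
  -- `G` has rank at least three
  let x' : Fin N := ⟨x, hx⟩
  let y' : Fin N := ⟨y, hy⟩
  let z' : Fin N := ⟨z, hz⟩
  have hxy' : x' ≠ y' := fun h => hxy (congrArg Fin.val h)
  have hind : (mat N 4 vec).Indep {x', y'} := hsim x' (Set.mem_univ _) y' (Set.mem_univ _)
  have hz' : z' ∉ (mat N 4 vec).closure {x', y'} := by
    rw [mem_closure_pair, ← onLine_iff]
    simp only [x', y', z', hnl]
    simp
  have hind3 : (mat N 4 vec).Indep (insert z' {x', y'}) :=
    ((hind.notMem_closure_iff (Set.mem_univ _)).1 hz').1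
  have hzne : z' ∉ ({x', y'} : Set (Fin N)) := ((hind.notMem_closure_iff (Set.mem_univ _)).1 hz').2
  have hcard : (insert z' {x', y'} : Set (Fin N)).ncard = 3 := by
    rw [Set.ncard_insert_of_notMem hzne (Set.toFinite _), Set.ncard_pair hxy']
  have hrk3 : 3 ≤ rk (mat N 4 vec) G := by
    rw [hrep.rk_eq (Set.subset_univ _), ← hcard,
      ← finrank_span_of_linearIndepOn ((hrep _ (Set.subset_univ _)).1 hind3) (Set.toFinite _)]
    apply Submodule.finrank_mono
    apply span_mono
    apply image_mono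
    rintro u (rfl | rfl | rfl)
    · exact zz_iff.1 hzz
    · exact zz_iff.1 hzx
    · exact zz_iff.1 hzy
  omega

end Consequences

end Seven

end Pool.Agent.X53.Blk
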