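import Mathlib

/-! Fourier inversion on `(ZMod 2)^r` used for the cycle ideal of a punctured projective geometry -/

set_option autoImplicit false

namespace Pool.Agent.X53.Cyc

open Finset

variable {r : ℕ}

/-- the sign `(-1)^a` -/
def sg (a : ZMod 2) : ℤ := if a = 0 then 1 else -1

theorem sg_add (a b : ZMod 2) : sg (a + b) = sg a * sg b := by
  revert a b; decide

theorem sg_zero : sg 0 = 1 := rfl

theorem sg_one : sg 1 = -1 := rfl

theorem zmod2 (a : ZMod 2) : a = 0 ∨ a = 1 := by
  revert a; decide

/-- the dot product -/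
def dp (y x : Fin r → ZMod 2) : ZMod 2 := ∑ i, y i * x i

theorem dp_add_left (y z x : Fin r → ZMod 2) : dp (y + z) x = dp y x + dp z x := by
  simp [dp, add_mul, Finset.sum_add_distrib]

theorem dp_add_right (y x z : Fin r → ZMod 2) : dp y (x + z) = dp y x + dp y z := by
  simp [dp, mul_add, Finset.sum_add_distrib]

theorem dp_zero_right (y : Fin r → ZMod 2) : dp y 0 = 0 := by simp [dp]

theorem dp_zero_left (y : Fin r → ZMod 2) : dp 0 y = 0 := by simp [dp]

theorem exists_dp_one {z : Fin r → ZMod 2} (hz : z ≠ 0) : ∃ y, dp y z = 1 := by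
  obtain ⟨i, hi⟩ := Function.ne_iff.1 hz
  refine ⟨Pi.single i 1, ?_⟩
  have : z i = 1 := (zmod2 (z i)).resolve_left hi
  rw [dp, Finset.sum_eq_single i]
  · simp [this]
  · intro j _ hj
    simp [Pi.single_eq_of_ne hj]
  · simp

theorem dp_comm (y x : Fin r → ZMod 2) : dp y x = dp x y := by
  simp [dp, mul_comm]

theorem exists_dp_one' {z : Fin r → ZMod 2} (hz : z ≠ 0) : ∃ y, dp z y = 1 := by
  obtain ⟨y, hy⟩ := exists_dp_one hz
  exact ⟨y, by rw [dp_comm, hy]⟩

/-- nontrivial characters have sum zero -/
theorem sum_sg_eq_zero {z : Fin r → ZMod 2} (hz : z ≠ 0) : ∑ y, sg (dp y z) = 0 := by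
  obtain ⟨w, hw⟩ := exists_dp_one hz
  have h : ∑ y, sg (dp y z) = ∑ y, sg (dp (y + w) z) :=
    (Equiv.sum_comp (Equiv.addRight w) (fun y => sg (dp y z))).symm
  have h2 : ∑ y, sg (dp (y + w) z) = - ∑ y, sg (dp y z) := by
    rw [← Finset.sum_neg_distrib]
    refine Finset.sum_congr rfl fun y _ => ?_
    rw [dp_add_left, sg_add, hw, sg_one]
    ring
  rw [h2] at h
  linarith

theorem sum_sg' (y y' : Fin r → ZMod 2) :
    ∑ x, sg (dp y x) * sg (dp y' x) = if y = y' then (2 : ℤ) ^ r else 0 := by
  have h : ∀ x, sg (dp y x) * sg (dp y' x) = sg (dp x (y + y')) := by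
    intro x
    rw [dp_comm x, dp_add_left, sg_add]
  rw [Finset.sum_congr rfl fun x _ => h x]
  split_ifs with hy
  · subst hy
    have : y + y = 0 := by
      ext i
      have : ∀ a : ZMod 2, a + a = 0 := by decide
      exact this _
    rw [this]
    simp [dp_zero_right, sg_zero, ZMod.card]
  · apply sum_sg_eq_zero
    intro h0
    apply hy
    ext i
    have h1 : y i + y' i = 0 := congrFun h0 i
    have : ∀ a b : ZMod 2, a + b = 0 → a = b := by decide
    exact this _ _ h1

/-- if the Fourier transform of `c` vanishes outside of `p` then `c` is a multiple of a character -/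
theorem fourier {p : Fin r → ZMod 2} (c : (Fin r → ZMod 2) → ℤ)
    (hc : ∀ x, x ≠ p → ∑ y, c y * sg (dp y x) = 0) (y0 : Fin r → ZMod 2) :
    c y0 = sg (dp y0 p) * c 0 := by
  have key : ∀ y1, (2 : ℤ) ^ r * c y1 = sg (dp y1 p) * ∑ y, c y * sg (dp y p) := by
    intro y1
    have h1 : ∑ x, sg (dp y1 x) * ∑ y, c y * sg (dp y x)
        = sg (dp y1 p) * ∑ y, c y * sg (dp y p) := by
      rw [Finset.sum_eq_single p]
      · intro x _ hx
        rw [hc x hx, mul_zero]
      · simp
    rw [← h1]
    have h2 : ∑ x, sg (dp y1 x) * ∑ y, c y * sg (dp y x)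
        = ∑ y, c y * ∑ x, sg (dp y1 x) * sg (dp y x) := by
      simp_rw [Finset.mul_sum]
      rw [Finset.sum_comm]
      refine Finset.sum_congr rfl fun y _ => Finset.sum_congr rfl fun x _ => by ring
    rw [h2]
    simp_rw [sum_sg']
    simp [mul_comm]
  have h0 := key 0
  have h1 := key y0
  rw [dp_zero_left, sg_zero, one_mul] at h0
  rw [← h0] at h1
  have h2 : (2 : ℤ) ^ r ≠ 0 := by positivity
  apply mul_left_cancel₀ h2
  rw [h1]
  ring

/-- the number of `y` with `y · p = 0` is `2 ^ (r - 1)` -/
theorem card_zero {p : Fin (r + 1) → ZMod 2} (hp : p ≠ 0) :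
    (univ.filter fun y => dp y p = 0).card = 2 ^ r ∧
    (univ.filter fun y => dp y p = 1).card = 2 ^ r := by
  obtain ⟨w, hw⟩ := exists_dp_one hp
  have h1 : (univ.filter fun y => dp y p = 0).card = (univ.filter fun y => dp y p = 1).card := by
    apply Finset.card_bij' (fun y _ => y + w) (fun y _ => y + w)
    · intro y hy
      simp only [mem_filter, mem_univ, true_and] at hy ⊢
      rw [dp_add_left, hy, hw, zero_add]
    · intro y hy
      simp only [mem_filter, mem_univ, true_and] at hy ⊢
      rw [dp_add_left, hy, hw]; decide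
    · intro y _
      ext i
      have : ∀ a b : ZMod 2, a + b + b = a := by decide
      exact this _ _
    · intro y _
      ext i
      have : ∀ a b : ZMod 2, a + b + b = a := by decide
      exact this _ _
  have h2 : (univ.filter fun y => dp y p = 0).card + (univ.filter fun y => dp y p = 1).card
      = 2 ^ (r + 1) := by
    have h3 : (univ.filter fun y : Fin (r+1) → ZMod 2 => dp y p = 1)
        = univ.filter fun y => ¬ dp y p = 0 := by
      ext y
      simp only [mem_filter, mem_univ, true_and]
      rcases zmod2 (dp y p) with h | h <;> simp [h]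
    rw [h3, Finset.card_filter_add_card_filter_not]
    simp [ZMod.card]
  have h4 : (2 : ℕ) ^ (r + 1) = 2 ^ r + 2 ^ r := by ring
  omega

/-- two multiplicity functions with the same sums over the sets `D_x` agree, if they are small -/
theorem inj {p : Fin (r + 1) → ZMod 2} (hp : p ≠ 0) (u v : (Fin (r + 1) → ZMod 2) → ℕ)
    (hsum : ∑ y, u y = ∑ y, v y)
    (hE : ∀ x, x ≠ 0 → x ≠ p → ∑ y ∈ univ.filter (fun y => dp y x = 1), u y
      = ∑ y ∈ univ.filter (fun y => dp y x = 1), v y)
    (hu : ∑ y, u y < 2 ^ r) : u = v := by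
  obtain ⟨c, hcdef⟩ : ∃ c : (Fin (r + 1) → ZMod 2) → ℤ, ∀ y, c y = (u y : ℤ) - v y :=
    ⟨_, fun _ => rfl⟩
  have hc : ∀ x, x ≠ p → ∑ y, c y * sg (dp y x) = 0 := by
    intro x hx
    have h0 : ∑ y, c y = 0 := by
      simp_rw [hcdef]
      rw [Finset.sum_sub_distrib]
      have := congrArg (Nat.cast (R := ℤ)) hsum
      push_cast at this
      rw [this]; ring
    by_cases hx0 : x = 0
    · subst hx0
      simp [dp_zero_right, sg_zero, h0]
    · have h1 : ∑ y ∈ univ.filter (fun y => dp y x = 1), c y = 0 := by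
        simp_rw [hcdef]
        rw [Finset.sum_sub_distrib]
        have := congrArg (Nat.cast (R := ℤ)) (hE x hx0 hx)
        push_cast at this
        rw [this]; ring
      have h2 : ∀ y, c y * sg (dp y x) = c y - 2 * (if dp y x = 1 then c y else 0) := by
        intro y
        rcases zmod2 (dp y x) with h | h
        · rw [h, sg_zero]; simp
        · rw [h, sg_one]; simp; ring
      rw [Finset.sum_congr rfl fun y _ => h2 y, Finset.sum_sub_distrib, h0, ← Finset.mul_sum,
        ← Finset.sum_filter, h1]
      ring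
  have hf := fourier c hc
  have hc0 : c 0 = 0 := by
    by_contra hne
    obtain ⟨hc1, hc2⟩ := card_zero (r := r) hp
    rcases lt_or_gt_of_ne hne with hneg | hpos
    · -- v is at least one on dp y p = 0
      have h1 : ∀ y ∈ univ.filter (fun y => dp y p = 0), 1 ≤ v y := by
        intro y hy
        simp only [mem_filter, mem_univ, true_and] at hy
        have := hf y
        rw [hy, sg_zero, one_mul] at this
        have h2 := hcdef y
        omega
      have h2 : 2 ^ r ≤ ∑ y, v y := by
        calc 2 ^ r = ∑ y ∈ univ.filter (fun y => dp y p = 0), 1 := by simp [hc1]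
          _ ≤ ∑ y ∈ univ.filter (fun y => dp y p = 0), v y := Finset.sum_le_sum h1
          _ ≤ ∑ y, v y := Finset.sum_le_sum_of_subset (Finset.filter_subset _ _)
      omega
    · have h1 : ∀ y ∈ univ.filter (fun y => dp y p = 0), 1 ≤ u y := by
        intro y hy
        simp only [mem_filter, mem_univ, true_and] at hy
        have := hf y
        rw [hy, sg_zero, one_mul] at this
        have h2 := hcdef y
        omega
      have h2 : 2 ^ r ≤ ∑ y, u y := by
        calc 2 ^ r = ∑ y ∈ univ.filter (fun y => dp y p = 0), 1 := by simp [hc1]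
          _ ≤ ∑ y ∈ univ.filter (fun y => dp y p = 0), u y := Finset.sum_le_sum h1
          _ ≤ ∑ y, u y := Finset.sum_le_sum_of_subset (Finset.filter_subset _ _)
      omega
  funext y
  have := hf y
  rw [hc0, mul_zero] at this
  have h2 := hcdef y
  omega

end Pool.Agent.X53.Cyc
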