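import Pool.Agent.X53.CycA
import Pool.Agent.Helper236.Cycle

/-! The dual of the matroid of a punctured binary projective geometry -/

set_option autoImplicit false

namespace Pool.Agent.X53.Cyc

open Set Module Submodule Pool.Agent.Helper236

variable {r : ℕ}

abbrev V (r : ℕ) := Fin r → ZMod 2

/-- the ground set -/
def ground (p : V r) : Set (V r) := {x | x ≠ 0 ∧ x ≠ p}

theorem ground_finite (p : V r) : (ground p).Finite := Set.toFinite _

/-- the matroid of the punctured projective geometry -/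
noncomputable def PGp (p : V r) : Matroid (V r) :=
  linMatroid (ZMod 2) (id : V r → V r) (ground p) (ground_finite p)

theorem PGp_rep (p : V r) : Rep (ZMod 2) (PGp p) (id : V r → V r) := linMatroid_rep _ _ _

/-- the functional of `y` -/
def fn (y : V r) : V r →ₗ[ZMod 2] ZMod 2 where
  toFun x := dp y x
  map_add' x z := dp_add_right y x z
  map_smul' c x := by
    simp only [RingHom.id_apply, smul_eq_mul]
    simp [dp, Finset.mul_sum]
    refine Finset.sum_congr rfl fun i _ => by ring

theorem fn_apply (y x : V r) : fn y x = dp y x := rfl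

/-- every functional is some `fn y` -/
theorem exists_fn (f : V r →ₗ[ZMod 2] ZMod 2) : ∃ y, f = fn y := by
  refine ⟨fun i => f (Pi.single i 1), ?_⟩
  refine LinearMap.pi_ext' fun i => ?_
  ext
  simp only [LinearMap.comp_apply, fn_apply, LinearMap.single_apply]
  rw [dp, Finset.sum_eq_single i]
  · simp
  · intro j _ hj
    simp [Pi.single_eq_of_ne hj]
  · simp

/-- the cocycle of `y` -/
def Dset (p : V r) (y : V r) : Set (V r) := {x | x ∈ ground p ∧ dp y x = 1}

theorem add_self' (x : V r) : x + x = 0 := by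
  ext i
  have : ∀ a : ZMod 2, a + a = 0 := by decide
  exact this _

theorem eq_of_add_eq_zero' {x z : V r} (h : x + z = 0) : x = z := by
  have : x + z + z = 0 + z := by rw [h]
  rwa [add_assoc, add_self', add_zero, zero_add] at this

/-- there is a vector different from `p` with `f = 1`, `g = 0` -/
theorem exists_sep (hr : 3 ≤ r) (p y z : V r) (hy : y ≠ 0) (hyz : y ≠ z) :
    ∃ x, x ≠ 0 ∧ x ≠ p ∧ dp y x = 1 ∧ dp z x = 0 := by
  -- first some x
  have h1 : ∃ x, dp y x = 1 ∧ dp z x = 0 := by
    by_cases hz : z = 0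
    · subst hz
      obtain ⟨x, hx⟩ := exists_dp_one' hy
      exact ⟨x, hx, dp_zero_left x⟩
    · obtain ⟨a, ha⟩ := exists_dp_one' hz
      have hne : y + z ≠ 0 := fun h => hyz (eq_of_add_eq_zero' h)
      obtain ⟨b, hb⟩ := exists_dp_one' hne
      obtain ⟨c, hc⟩ := exists_dp_one' hy
      rw [dp_add_left] at hb
      -- cases
      rcases zmod2 (dp y b) with hyb | hyb
      · -- dp z b = 1, dp y b = 0
        have hzb : dp z b = 1 := by rw [hyb, zero_add] at hb; exact hb
        rcases zmod2 (dp z c) with hzc | hzc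
        · exact ⟨c, hc, hzc⟩
        · refine ⟨c + b, ?_, ?_⟩
          · rw [dp_add_right, hc, hyb, add_zero]
          · rw [dp_add_right, hzc, hzb]; decide
      · have hzb : dp z b = 0 := by
          rcases zmod2 (dp z b) with h | h
          · exact h
          · rw [hyb, h] at hb
            exact absurd hb (by decide)
        exact ⟨b, hyb, hzb⟩
  obtain ⟨x0, hx1, hx2⟩ := h1
  -- kernel element
  have h2 : ∃ k : V r, k ≠ 0 ∧ dp y k = 0 ∧ dp z k = 0 := by
    have hker : (LinearMap.ker ((fn y).prod (fn z))) ≠ ⊥ := by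
      apply LinearMap.ker_ne_bot_of_finrank_lt
      rw [Module.finrank_prod, Module.finrank_self, Module.finrank_pi, Fintype.card_fin]
      omega
    obtain ⟨k, hk, hk0⟩ := Submodule.exists_mem_ne_zero_of_ne_bot hker
    rw [LinearMap.mem_ker] at hk
    exact ⟨k, hk0, congrArg Prod.fst hk, congrArg Prod.snd hk⟩
  obtain ⟨k, hk0, hk1, hk2⟩ := h2
  have hx0 : ∀ x : V r, dp y x = 1 → x ≠ 0 := by
    intro x hx h0
    rw [h0, dp_zero_right] at hx
    exact absurd hx (by decide)
  by_cases hp : x0 = p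
  · refine ⟨x0 + k, hx0 _ ?_, ?_, ?_, ?_⟩
    · rw [dp_add_right, hx1, hk1, add_zero]
    · intro h
      apply hk0
      rw [hp] at h
      simpa using h
    · rw [dp_add_right, hx1, hk1, add_zero]
    · rw [dp_add_right, hx2, hk2, add_zero]
  · exact ⟨x0, hx0 _ hx1, hp, hx1, hx2⟩

/-- the ground set spans: more precisely no nonzero functional vanishes on it -/
theorem Dset_subset_iff (hr : 3 ≤ r) (p y z : V r) (hy : y ≠ 0) (h : Dset p y ⊆ Dset p z) :
    y = z := by
  by_contra hne
  obtain ⟨x, hx0, hxp, h1, h2⟩ := exists_sep hr p y z hy hne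
  have := (h ⟨⟨hx0, hxp⟩, h1⟩).2
  rw [h2] at this
  exact absurd this (by decide)

theorem Dset_nonempty (hr : 3 ≤ r) (p y : V r) (hy : y ≠ 0) : (Dset p y).Nonempty := by
  obtain ⟨x, hx0, hxp, h1, _⟩ := exists_sep hr p y 0 hy hy
  exact ⟨x, ⟨hx0, hxp⟩, h1⟩

theorem Dset_inter (hr : 3 ≤ r) (p y z : V r) (hy : y ≠ 0) (hz : z ≠ 0) :
    (Dset p y ∩ Dset p z).Nonempty := by
  by_cases hyz : y = z
  · subst hyz
    rw [Set.inter_self]
    exact Dset_nonempty hr p y hy
  · have hne : y ≠ y + z := by
      intro h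
      apply hz
      have : y + 0 = y + z := by rw [add_zero]; exact h
      exact (add_left_cancel this).symm
    obtain ⟨x, hx0, hxp, h1, h2⟩ := exists_sep hr p y (y + z) hy hne
    refine ⟨x, ⟨⟨hx0, hxp⟩, h1⟩, ⟨⟨hx0, hxp⟩, ?_⟩⟩
    rw [dp_add_left, h1] at h2
    rcases zmod2 (dp z x) with h | h
    · rw [h] at h2
      exact absurd h2 (by decide)
    · exact h

theorem Dset_zero (p : V r) : Dset p 0 = ∅ := by
  ext x
  simp [Dset, dp_zero_left]

/-- a subspace containing all of the vectors outside of `D` -/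
theorem exists_fn_of_not_top (S : Submodule (ZMod 2) (V r)) (hS : S ≠ ⊤) :
    ∃ y, y ≠ 0 ∧ ∀ x ∈ S, dp y x = 0 := by
  obtain ⟨f, hf, hle⟩ := Submodule.exists_le_ker_of_lt_top S (lt_top_iff_ne_top.2 hS)
  obtain ⟨y, rfl⟩ := exists_fn f
  refine ⟨y, ?_, ?_⟩
  · rintro rfl
    apply hf
    ext x
    simp [fn_apply, dp_zero_left]
  · intro x hx
    exact hle hx

theorem span_base (hr : 3 ≤ r) (p : V r) {B : Set (V r)} (hB : (PGp p).IsBase B) :
    span (ZMod 2) B = ⊤ := by
  by_contra hne
  obtain ⟨y, hy, hyB⟩ := exists_fn_of_not_top _ hne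
  obtain ⟨x, hx⟩ := Dset_nonempty hr p y hy
  have h1 : x ∈ (PGp p).closure B := by
    rw [hB.closure_eq]
    exact hx.1
  rw [(PGp_rep p).mem_closure_iff hB.subset_ground hx.1, Set.image_id] at h1
  have := hyB x h1
  rw [hx.2] at this
  exact absurd this (by decide)

theorem meets_bases_iff (hr : 3 ≤ r) (p : V r) (X : Set (V r)) :
    (∀ B, (PGp p).IsBase B → (X ∩ B).Nonempty) ↔ ∃ y, y ≠ 0 ∧ Dset p y ⊆ X := by
  constructor
  · intro h
    by_contra hcon
    push Not at hcon
    have htop : span (ZMod 2) (ground p \ X) = ⊤ := by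
      by_contra hne
      obtain ⟨y, hy, hyB⟩ := exists_fn_of_not_top _ hne
      apply hcon y hy
      intro x hx
      by_contra hxX
      have := hyB x (subset_span ⟨hx.1, hxX⟩)
      rw [hx.2] at this
      exact absurd this (by decide)
    have hsubE : ground p \ X ⊆ (PGp p).E := Set.sdiff_subset
    obtain ⟨I, hI⟩ := (PGp p).exists_isBasis (ground p \ X) hsubE
    have hbase : (PGp p).IsBase I := by
      have hspan : (PGp p).closure I = (PGp p).E := by
        rw [hI.closure_eq_closure]
        apply Set.Subset.antisymm ((PGp p).closure_subset_ground _)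
        intro x hx
        rw [(PGp_rep p).mem_closure_iff hsubE hx, Set.image_id, htop]
        trivial
      exact hI.indep.isBase_of_ground_subset_closure hspan.ge
    obtain ⟨x, hx1, hx2⟩ := h I hbase
    exact (hI.subset hx2).2 hx1
  · rintro ⟨y, hy, hyX⟩ B hB
    by_contra hcon
    rw [Set.not_nonempty_iff_eq_empty] at hcon
    have hsub : span (ZMod 2) B ≤ LinearMap.ker (fn y) := by
      rw [span_le]
      intro x hx
      rw [SetLike.mem_coe, LinearMap.mem_ker, fn_apply]
      rcases zmod2 (dp y x) with h | h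
      · exact h
      · exfalso
        have : x ∈ X ∩ B := ⟨hyX ⟨hB.subset_ground hx, h⟩, hx⟩
        rw [hcon] at this
        exact this
    rw [span_base hr p hB] at hsub
    obtain ⟨x, hx⟩ := Dset_nonempty hr p y hy
    have h1 : fn y x = 0 := hsub (x := x) trivial
    rw [fn_apply, hx.2] at h1
    exact absurd h1 (by decide)

/-- the circuits of the dual -/
theorem isCircuit_iff (hr : 3 ≤ r) (p : V r) (C : Set (V r)) :
    (PGp p)✶.IsCircuit C ↔ ∃ y, y ≠ 0 ∧ C = Dset p y := by
  rw [← Matroid.isCocircuit_def, Matroid.isCocircuit_iff_minimal]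
  constructor
  · intro h
    obtain ⟨y, hy, hyC⟩ := (meets_bases_iff hr p C).1 h.prop
    refine ⟨y, hy, ?_⟩
    have h2 : ∀ B, (PGp p).IsBase B → (Dset p y ∩ B).Nonempty :=
      (meets_bases_iff hr p _).2 ⟨y, hy, Subset.rfl⟩
    exact Set.Subset.antisymm (h.le_of_le h2 hyC) hyC
  · rintro ⟨y, hy, rfl⟩
    refine ⟨(meets_bases_iff hr p _).2 ⟨y, hy, Subset.rfl⟩, ?_⟩
    intro X hX hle
    obtain ⟨z, hz, hzX⟩ := (meets_bases_iff hr p X).1 hX
    have := Dset_subset_iff hr p z y hz (hzX.trans hle)
    subst this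
    exact hzX

end Pool.Agent.X53.Cyc
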