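import Mathlib

/-!
# Valuated Delta-matroids from principal minors

Helper file for MP_c0a4b6_co and MP_943595_co.
-/

namespace Pool.Agent.X53.VDM

open Finset Matrix
open scoped symmDiff

/-! ### Subdivisions of the cube and valuated Delta-matroids -/

section Defs

variable {ι : Type*} [Fintype ι] [DecidableEq ι]

/-- The vector `e_S`. -/
def ind (S : Finset ι) : ι → ℝ := fun i => if i ∈ S then 1 else 0

/-- The lifted points `(e_S, p(S))` with `p(S) ≠ ∞`. -/
def lifted (p : Finset ι → WithTop ℝ) : Set ((ι → ℝ) × ℝ) :=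
  {z | ∃ S : Finset ι, z.1 = ind S ∧ p S = (z.2 : WithTop ℝ)}

/-- The lower face of `conv {(e_S, p(S)) : p(S) ≠ ∞}` selected by the functional
`(x, t) ↦ w · x + t`. -/
def lowerFace (p : Finset ι → WithTop ℝ) (w : ι → ℝ) : Set ((ι → ℝ) × ℝ) :=
  {z | z ∈ convexHull ℝ (lifted p) ∧ ∀ z' ∈ convexHull ℝ (lifted p),
    ∑ i, w i * z.1 i + z.2 ≤ ∑ i, w i * z'.1 i + z'.2}

/-- The cell of the subdivision induced by `p` which is the projection of a lower face. -/
def cell (p : Finset ι → WithTop ℝ) (w : ι → ℝ) : Set (ι → ℝ) := Prod.fst '' lowerFace p w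

/-- `p` is a valuated Delta-matroid: every edge (1-dimensional cell) of the subdivision induced by
`p` is parallel to some `e_i` or to some `e_i + e_j` or `e_i - e_j` with `i ≠ j`. -/
def IsValuatedDeltaMatroid (p : Finset ι → WithTop ℝ) : Prop :=
  ∀ w : ι → ℝ, Module.finrank ℝ (vectorSpan ℝ (cell p w)) = 1 →
    (∃ i, vectorSpan ℝ (cell p w) = Submodule.span ℝ {(Pi.single i 1 : ι → ℝ)}) ∨
    ∃ i j, i ≠ j ∧
      (vectorSpan ℝ (cell p w) = Submodule.span ℝ {(Pi.single i 1 : ι → ℝ) + Pi.single j 1} ∨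
       vectorSpan ℝ (cell p w) = Submodule.span ℝ {(Pi.single i 1 : ι → ℝ) - Pi.single j 1})

end Defs

/-! ### Faces of convex hulls -/

theorem convexHull_face {E : Type*} [AddCommGroup E] [Module ℝ E] (s : Set E) (l : E →ₗ[ℝ] ℝ) :
    {z | z ∈ convexHull ℝ s ∧ ∀ z' ∈ convexHull ℝ s, l z ≤ l z'} =
      convexHull ℝ {z | z ∈ s ∧ ∀ z' ∈ s, l z ≤ l z'} := by
  apply Set.Subset.antisymm
  · rintro z ⟨hz, hmin⟩
    rw [_root_.convexHull_eq] at hz
    obtain ⟨κ, t, a, x, ha, hsum, hx, rfl⟩ := hz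
    have hmin' : ∀ z' ∈ s, l (t.centerMass a x) ≤ l z' :=
      fun z' hz' => hmin z' (subset_convexHull ℝ s hz')
    classical
    have key : ∀ i ∈ t, a i ≠ 0 → l (x i) = l (t.centerMass a x) := by
      intro i hi hai
      have hc : l (t.centerMass a x) = ∑ j ∈ t, a j * l (x j) := by
        rw [Finset.centerMass_eq_of_sum_1 _ _ hsum, map_sum]
        simp
      set m := l (t.centerMass a x) with hm
      have h0 : ∑ j ∈ t, a j * (l (x j) - m) = 0 := by
        simp only [mul_sub, Finset.sum_sub_distrib, ← Finset.sum_mul, hsum, ← hc]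
        ring
      have h1 : ∀ j ∈ t, 0 ≤ a j * (l (x j) - m) := by
        intro j hj
        exact mul_nonneg (ha j hj) (sub_nonneg.2 (hmin' (x j) (hx j hj)))
      have h2 := (Finset.sum_eq_zero_iff_of_nonneg h1).1 h0 i hi
      rcases mul_eq_zero.1 h2 with h3 | h3
      · exact absurd h3 hai
      · linarith
    rw [← Finset.centerMass_filter_ne_zero]
    refine Finset.centerMass_mem_convexHull _ ?_ ?_ ?_
    · intro i hi
      exact ha i (Finset.mem_filter.1 hi).1
    · rw [Finset.sum_filter_ne_zero, hsum]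
      norm_num
    · intro i hi
      obtain ⟨hi, hai⟩ := Finset.mem_filter.1 hi
      refine ⟨hx i hi, fun z' hz' => ?_⟩
      rw [key i hi hai]
      exact hmin' z' hz'
  · apply convexHull_min
    · rintro z ⟨hz, hmin⟩
      refine ⟨subset_convexHull ℝ s hz, fun z' hz' => ?_⟩
      have hconv : Convex ℝ {y | l z ≤ l y} := convex_halfSpace_ge l.isLinear (l z)
      exact convexHull_min (s := s) (t := {y | l z ≤ l y}) (fun y hy => hmin y hy) hconv hz'
    · intro y hy z hz a b ha hb hab
      refine ⟨convex_convexHull ℝ s hy.1 hz.1 ha hb hab, fun z' hz' => ?_⟩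
      have h1 := hy.2 z' hz'
      have h2 := hz.2 z' hz'
      simp only [map_add, map_smul, smul_eq_mul]
      calc a * l y + b * l z ≤ a * l z' + b * l z' := by
            gcongr
        _ = l z' := by rw [← add_mul, hab, one_mul]

/-! ### Cells and minimisers -/

section Cells

variable {ι : Type*} [Fintype ι] [DecidableEq ι]

/-- The minimisers of `p(S) + w(S)`. -/
def minimisers (p : Finset ι → WithTop ℝ) (w : ι → ℝ) : Set (Finset ι) :=
  {S | p S ≠ ⊤ ∧ ∀ T, p S + ((∑ i ∈ S, w i : ℝ) : WithTop ℝ) ≤ p T + ((∑ i ∈ T, w i : ℝ) : WithTop ℝ)}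

theorem sum_mul_ind (w : ι → ℝ) (S : Finset ι) : ∑ i, w i * ind S i = ∑ i ∈ S, w i := by
  simp [ind, Finset.sum_ite_mem]

theorem cell_eq (p : Finset ι → WithTop ℝ) (w : ι → ℝ) :
    cell p w = convexHull ℝ (ind '' minimisers p w) := by
  let l : ((ι → ℝ) × ℝ) →ₗ[ℝ] ℝ :=
    (Fintype.linearCombination ℝ w).comp (LinearMap.fst ℝ (ι → ℝ) ℝ) + LinearMap.snd ℝ (ι → ℝ) ℝ
  have hl : ∀ z : (ι → ℝ) × ℝ, l z = ∑ i, w i * z.1 i + z.2 := by
    intro z
    simp [l, Fintype.linearCombination_apply, mul_comm]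
  have h1 : lowerFace p w = convexHull ℝ {z | z ∈ lifted p ∧ ∀ z' ∈ lifted p, l z ≤ l z'} := by
    rw [← convexHull_face]
    ext z
    simp only [lowerFace, Set.mem_ofPred_eq, hl]
  rw [cell, h1]
  have h2 := (LinearMap.fst ℝ (ι → ℝ) ℝ).image_convexHull
    {z | z ∈ lifted p ∧ ∀ z' ∈ lifted p, l z ≤ l z'}
  have h3 : (Prod.fst : (ι → ℝ) × ℝ → (ι → ℝ)) = ⇑(LinearMap.fst ℝ (ι → ℝ) ℝ) := rfl
  rw [h3, h2]
  congr 1
  ext x
  simp only [Set.mem_image, Set.mem_ofPred_eq, lifted, minimisers]
  constructor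
  · rintro ⟨z, ⟨⟨S, hS, hpS⟩, hmin⟩, rfl⟩
    refine ⟨S, ⟨by rw [hpS]; exact WithTop.coe_ne_top, fun T => ?_⟩, by simp [hS]⟩
    rcases eq_or_ne (p T) ⊤ with hT | hT
    · rw [hT]; simp
    · obtain ⟨t, ht⟩ := WithTop.ne_top_iff_exists.1 hT
      have := hmin (ind T, t) ⟨T, rfl, ht.symm⟩
      rw [hl, hl, hS] at this
      simp only [sum_mul_ind] at this
      rw [hpS, ← ht]
      rw [← WithTop.coe_add, ← WithTop.coe_add, WithTop.coe_le_coe]
      linarith
  · rintro ⟨S, ⟨hS, hmin⟩, rfl⟩
    obtain ⟨s, hs⟩ := WithTop.ne_top_iff_exists.1 hS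
    refine ⟨(ind S, s), ⟨⟨S, rfl, hs.symm⟩, ?_⟩, rfl⟩
    rintro ⟨y, t⟩ ⟨T, hT, hpT⟩
    have h := hmin T
    simp only at hT hpT
    rw [hpT, ← hs, ← WithTop.coe_add, ← WithTop.coe_add, WithTop.coe_le_coe] at h
    rw [hl, hl]
    simp only [hT, sum_mul_ind]
    linarith

theorem vectorSpan_cell (p : Finset ι → WithTop ℝ) (w : ι → ℝ) :
    vectorSpan ℝ (cell p w) = vectorSpan ℝ (ind '' minimisers p w) := by
  rw [cell_eq, ← direction_affineSpan, affineSpan_convexHull, direction_affineSpan]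

omit [Fintype ι] in
theorem ind_injective : Function.Injective (ind : Finset ι → ι → ℝ) := by
  intro S T h
  ext i
  have := congrFun h i
  simp only [ind] at this
  by_cases hS : i ∈ S <;> by_cases hT : i ∈ T <;> simp_all

omit [Fintype ι] in
theorem ind_sub_ind (S T : Finset ι) (i : ι) :
    (ind S - ind T) i = (if i ∈ S then 1 else 0) - (if i ∈ T then 1 else 0) := rfl

/-- A one-dimensional cell has exactly two vertices. -/
theorem exists_pair_of_finrank_eq_one (p : Finset ι → WithTop ℝ) (w : ι → ℝ)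
    (h : Module.finrank ℝ (vectorSpan ℝ (cell p w)) = 1) :
    ∃ S T, S ≠ T ∧ minimisers p w = {S, T} ∧
      vectorSpan ℝ (cell p w) = Submodule.span ℝ {ind S - ind T} := by
  rw [vectorSpan_cell] at h ⊢
  set V := vectorSpan ℝ (ind '' minimisers p w) with hV
  have hne : V ≠ ⊥ := by
    intro h0
    rw [h0] at h
    simp at h
  have hnotsub : ¬ (ind '' minimisers p w).Subsingleton := by
    intro hs
    exact hne (vectorSpan_of_subsingleton ℝ hs)
  rw [Set.not_subsingleton_iff] at hnotsub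
  obtain ⟨_, ⟨S, hS, rfl⟩, _, ⟨T, hT, rfl⟩, hST⟩ := hnotsub
  have hST' : S ≠ T := fun h => hST (by rw [h])
  have hmem : ind S - ind T ∈ V := by
    have := vsub_mem_vectorSpan ℝ (Set.mem_image_of_mem ind hS) (Set.mem_image_of_mem ind hT)
    simpa using this
  have hd : ind S - ind T ≠ 0 := sub_ne_zero.2 hST
  have hspan : V = Submodule.span ℝ {ind S - ind T} := by
    symm
    apply Submodule.eq_of_le_of_finrank_eq
    · rwa [Submodule.span_singleton_le_iff_mem]
    · rw [finrank_span_singleton hd, h]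
  refine ⟨S, T, hST', ?_, hspan⟩
  apply Set.Subset.antisymm
  · intro U hU
    have hUmem : ind U - ind S ∈ V := by
      have := vsub_mem_vectorSpan ℝ (Set.mem_image_of_mem ind hU) (Set.mem_image_of_mem ind hS)
      simpa using this
    rw [hspan, Submodule.mem_span_singleton] at hUmem
    obtain ⟨t, ht⟩ := hUmem
    obtain ⟨i, hi⟩ : ∃ i, ¬ (i ∈ S ↔ i ∈ T) := by
      by_contra hcon
      push Not at hcon
      exact hST' (Finset.ext hcon)
    have hti := congrFun ht i
    rw [Pi.smul_apply, ind_sub_ind, ind_sub_ind, smul_eq_mul] at hti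
    have ht01 : t = 0 ∨ t = -1 := by
      by_cases hS' : i ∈ S <;> by_cases hT' : i ∈ T <;> by_cases hU' : i ∈ U <;>
        simp only [hS', hT', hU', if_true, if_false] at hti <;>
        first
        | (left; linarith)
        | (right; linarith)
        | (exfalso; exact hi (by simp [hS', hT']))
    rcases ht01 with rfl | rfl
    · left
      apply ind_injective
      rw [zero_smul] at ht
      exact sub_eq_zero.1 ht.symm
    · right
      apply ind_injective
      have : ind U = ind S + (-1 : ℝ) • (ind S - ind T) := by rw [ht]; abel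
      rw [this]
      simp
  · rintro U (rfl | rfl)
    · exact hS
    · exact hT

/-- Criterion: it suffices that two minimisers which are the only ones differ in at most two
elements. -/
theorem isValuatedDeltaMatroid_of (p : Finset ι → WithTop ℝ)
    (h : ∀ (w : ι → ℝ) (S T : Finset ι), S ≠ T → minimisers p w = {S, T} → (S ∆ T).card ≤ 2) :
    IsValuatedDeltaMatroid p := by
  intro w hw
  obtain ⟨S, T, hST, hmin, hspan⟩ := exists_pair_of_finrank_eq_one p w hw
  have hcard := h w S T hST hmin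
  have hpos : 0 < (S ∆ T).card := by
    rw [Finset.card_pos, Finset.nonempty_iff_ne_empty]
    intro h0
    exact hST (symmDiff_eq_bot.1 h0)
  have hneg : ∀ v : ι → ℝ, Submodule.span ℝ {-v} = Submodule.span ℝ {v} := by
    intro v
    rw [← Set.neg_singleton, Submodule.span_neg]
  have hout : ∀ i, i ∉ S ∆ T → (ind S - ind T) i = 0 := by
    intro i hi
    rw [ind_sub_ind]
    rw [Finset.mem_symmDiff] at hi
    by_cases hS : i ∈ S <;> by_cases hT : i ∈ T <;> simp_all
  have hin : ∀ i, i ∈ S ∆ T → (ind S - ind T) i = 1 ∨ (ind S - ind T) i = -1 := by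
    intro i hi
    rw [ind_sub_ind]
    rw [Finset.mem_symmDiff] at hi
    by_cases hS : i ∈ S <;> by_cases hT : i ∈ T <;> simp_all
  rw [hspan]
  rcases (by omega : (S ∆ T).card = 1 ∨ (S ∆ T).card = 2) with hc | hc
  · obtain ⟨i, hi⟩ := Finset.card_eq_one.1 hc
    left
    refine ⟨i, ?_⟩
    rcases hin i (by simp [hi]) with h1 | h1
    · have : ind S - ind T = Pi.single i 1 := by
        ext j
        by_cases hj : j = i
        · subst hj; rw [h1]; simp
        · rw [hout j (by simp [hi, hj])]; simp [Pi.single_apply, hj]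
      rw [this]
    · have : ind S - ind T = - Pi.single i 1 := by
        ext j
        by_cases hj : j = i
        · subst hj; rw [h1]; simp
        · rw [hout j (by simp [hi, hj])]; simp [Pi.single_apply, hj]
      rw [this, hneg]
  · obtain ⟨i, j, hij, hi⟩ := Finset.card_eq_two.1 hc
    right
    refine ⟨i, j, hij, ?_⟩
    have hform : ∀ a b : ℝ, (ind S - ind T) i = a → (ind S - ind T) j = b →
        ind S - ind T = Pi.single i a + Pi.single j b := by
      intro a b ha hb
      ext k
      by_cases hki : k = i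
      · subst hki; rw [ha]; simp [Pi.single_apply, hij]
      · by_cases hkj : k = j
        · subst hkj; rw [hb]; simp [Pi.single_apply, hki]
        · rw [hout k (by simp [hi, hki, hkj])]; simp [Pi.single_apply, hki, hkj]
    rcases hin i (by simp [hi]) with h1 | h1 <;> rcases hin j (by simp [hi]) with h2 | h2
    · left
      rw [hform _ _ h1 h2]
    · right
      rw [hform _ _ h1 h2, Pi.single_neg, ← sub_eq_add_neg]
    · right
      rw [hform _ _ h1 h2, Pi.single_neg, ← hneg]
      congr 2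
      abel
    · left
      rw [hform _ _ h1 h2, Pi.single_neg, Pi.single_neg, ← hneg]
      congr 2
      abel

end Cells

/-! ### Principal pivot transforms -/

section Pivot

variable {ι K : Type*} [Fintype ι] [DecidableEq ι] [Field K]

/-- Principal minors. -/
def pm (A : Matrix ι ι K) (S : Finset ι) : K :=
  (A.submatrix (fun i : S => (i : ι)) (fun i : S => (i : ι))).det

/-- Row `i` from `A` if `i ∈ S`, otherwise the `i`-th unit vector. -/
def mix (A : Matrix ι ι K) (S : Finset ι) : Matrix ι ι K :=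
  Matrix.of fun i j => if i ∈ S then A i j else (1 : Matrix ι ι K) i j

omit [Fintype ι] [DecidableEq ι] in
theorem det_congr_inst {m : Type*} {i1 : Fintype m} {i2 : Fintype m} {d1 : DecidableEq m}
    {d2 : DecidableEq m} (M : Matrix m m K) : @Matrix.det m d1 i1 K _ M = @Matrix.det m d2 i2 K _ M := by
  have h1 : i1 = i2 := Subsingleton.elim _ _
  subst h1
  have h2 : d1 = d2 := Subsingleton.elim _ _
  subst h2
  rfl

theorem det_mix (A : Matrix ι ι K) (S : Finset ι) : (mix A S).det = pm A S := by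
  have h := Matrix.twoBlockTriangular_det (mix A S) (fun i => i ∈ S) (by
    intro i hi j hj
    have : mix A S i j = (1 : Matrix ι ι K) i j := if_neg hi
    rw [this]
    exact Matrix.one_apply_ne (fun h => hi (h ▸ hj)))
  rw [h]
  have h1 : (Matrix.toSquareBlockProp (mix A S) fun i => i ∉ S) = 1 := by
    ext ⟨i, hi⟩ ⟨j, hj⟩
    have : (Matrix.toSquareBlockProp (mix A S) fun i => i ∉ S) ⟨i, hi⟩ ⟨j, hj⟩ =
      mix A S i j := rfl
    rw [this]
    have : mix A S i j = (1 : Matrix ι ι K) i j := if_neg hi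
    rw [this, Matrix.one_apply, Matrix.one_apply]
    simp only [Subtype.mk.injEq]
  rw [h1, Matrix.det_one, mul_one, pm]
  let e : {x // x ∈ S} ≃ {a // (fun i => i ∈ S) a} := Equiv.refl _
  have h3 := Matrix.det_submatrix_equiv_self e
    (Matrix.toSquareBlockProp (mix A S) fun i => i ∈ S)
  have h2 : (Matrix.toSquareBlockProp (mix A S) fun i => i ∈ S).submatrix e e =
      A.submatrix (fun i : S => (i : ι)) (fun i : S => (i : ι)) := by
    ext ⟨i, hi⟩ ⟨j, hj⟩
    exact if_pos hi
  rw [h2] at h3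
  exact (det_congr_inst _).trans h3.symm

/-- The principal pivot transform of `A` at `S`. -/
noncomputable def pivot (A : Matrix ι ι K) (S : Finset ι) : Matrix ι ι K :=
  mix A Sᶜ * (mix A S)⁻¹

theorem mix_apply (A : Matrix ι ι K) (S : Finset ι) (i j : ι) :
    mix A S i j = if i ∈ S then A i j else (1 : Matrix ι ι K) i j := rfl

theorem pivot_mul (A : Matrix ι ι K) (S : Finset ι) (hS : pm A S ≠ 0) :
    pivot A S * mix A S = mix A Sᶜ := by
  have hu : IsUnit (mix A S).det := by
    rw [det_mix]; exact isUnit_iff_ne_zero.2 hS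
  rw [pivot, Matrix.mul_assoc, Matrix.nonsing_inv_mul _ hu, Matrix.mul_one]

theorem mix_pivot_mul (A : Matrix ι ι K) (S X : Finset ι) (hS : pm A S ≠ 0) :
    mix (pivot A S) X * mix A S = mix A (S ∆ X) := by
  ext i j
  have hrow : (mix (pivot A S) X * mix A S) i j =
      if i ∈ X then (pivot A S * mix A S) i j else ((1 : Matrix ι ι K) * mix A S) i j := by
    simp only [Matrix.mul_apply, mix_apply]
    split_ifs <;> rfl
  rw [hrow, pivot_mul A S hS, Matrix.one_mul]
  simp only [mix_apply, Finset.mem_compl, Finset.mem_symmDiff]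
  by_cases h1 : i ∈ X <;> by_cases h2 : i ∈ S <;> simp [h1, h2]

theorem pm_pivot (A : Matrix ι ι K) (S X : Finset ι) (hS : pm A S ≠ 0) :
    pm (pivot A S) X * pm A S = pm A (S ∆ X) := by
  rw [← det_mix, ← det_mix, ← det_mix, ← Matrix.det_mul, mix_pivot_mul A S X hS]

/-- The conjugate transpose with respect to `σ`. -/
def ct (σ : K →+* K) (A : Matrix ι ι K) : Matrix ι ι K := (A.map σ)ᵀ

theorem ct_apply (σ : K →+* K) (A : Matrix ι ι K) (i j : ι) : ct σ A i j = σ (A j i) := rfl

theorem ct_mul (σ : K →+* K) (A B : Matrix ι ι K) : ct σ (A * B) = ct σ B * ct σ A := by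
  rw [ct, Matrix.map_mul, Matrix.transpose_mul]; rfl

theorem ct_one (σ : K →+* K) : ct σ (1 : Matrix ι ι K) = 1 := by
  ext i j
  rw [ct_apply, Matrix.one_apply, Matrix.one_apply]
  by_cases h : j = i
  · simp [h]
  · simp [h, Ne.symm h]

theorem ct_mix (σ : K →+* K) (A : Matrix ι ι K) (S : Finset ι) :
    ct σ (mix A S) * mix A Sᶜ + ct σ (mix A Sᶜ) * mix A S = A + ct σ A := by
  ext i j
  rw [Matrix.add_apply, Matrix.mul_apply, Matrix.mul_apply, ← Finset.sum_add_distrib]
  have hterm : ∀ k ∈ (Finset.univ : Finset ι),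
      ct σ (mix A S) i k * mix A Sᶜ k j + ct σ (mix A Sᶜ) i k * mix A S k j =
        σ (A k i) * (1 : Matrix ι ι K) k j + (1 : Matrix ι ι K) i k * A k j := by
    intro k _
    simp only [ct_apply, mix_apply, Finset.mem_compl]
    have h1 : σ ((1 : Matrix ι ι K) k i) = (1 : Matrix ι ι K) i k := by
      rw [Matrix.one_apply, Matrix.one_apply]
      by_cases h : k = i
      · simp [h]
      · simp [h, Ne.symm h]
    by_cases hk : k ∈ S
    · simp only [hk, if_true, not_true_eq_false, if_false, h1]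
    · simp only [hk, if_false, not_false_eq_true, if_true, h1]
      rw [add_comm]
  rw [Finset.sum_congr rfl hterm, Finset.sum_add_distrib, Matrix.add_apply, ct_apply, add_comm]
  congr 1
  · rw [← Matrix.mul_apply, Matrix.one_mul]
  · simp [Matrix.one_apply]

/-- If `A + A*` has the form `x yᵀ`, so has `A' + A'*` for each principal pivot transform `A'`. -/
theorem exists_vec_pivot (σ : K →+* K) (A : Matrix ι ι K) (S : Finset ι) (hS : pm A S ≠ 0)
    (x y : ι → K) (h : A + ct σ A = Matrix.vecMulVec x y) :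
    ∃ x' y' : ι → K, pivot A S + ct σ (pivot A S) = Matrix.vecMulVec x' y' := by
  have hu : IsUnit (mix A S).det := by
    rw [det_mix]; exact isUnit_iff_ne_zero.2 hS
  set Q := mix A S with hQ
  set P := mix A Sᶜ with hP
  have h1 : Q * Q⁻¹ = 1 := Matrix.mul_nonsing_inv _ hu
  have h2 : ct σ Q⁻¹ * ct σ Q = 1 := by rw [← ct_mul, h1, ct_one]
  have h3 : pivot A S + ct σ (pivot A S) = ct σ Q⁻¹ * (A + ct σ A) * Q⁻¹ := by
    rw [← ct_mix σ A S, ← hP, ← hQ]
    have : pivot A S = P * Q⁻¹ := rfl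
    rw [this, ct_mul, Matrix.mul_add, Matrix.add_mul]
    rw [← Matrix.mul_assoc (ct σ Q⁻¹) (ct σ Q) P, h2, Matrix.one_mul]
    rw [Matrix.mul_assoc (ct σ Q⁻¹) (ct σ P * Q) Q⁻¹, Matrix.mul_assoc (ct σ P) Q Q⁻¹, h1,
      Matrix.mul_one]
  refine ⟨ct σ Q⁻¹ *ᵥ x, y ᵥ* Q⁻¹, ?_⟩
  rw [h3, h, Matrix.mul_vecMulVec, Matrix.vecMulVec_mul]

theorem exists_vec_of_rank_le_one (M : Matrix ι ι K) (h : M.rank ≤ 1) :
    ∃ x y : ι → K, M = Matrix.vecMulVec x y := by
  have h' : Module.finrank K (LinearMap.range M.mulVecLin) ≤ 1 := h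
  rw [finrank_le_one_iff] at h'
  obtain ⟨⟨v, hv⟩, hv'⟩ := h'
  have h1 : ∀ j : ι, ∃ c : K, ∀ i, M i j = v i * c := by
    intro j
    obtain ⟨c, hc⟩ := hv' ⟨M.mulVecLin (Pi.single j 1), LinearMap.mem_range_self _ _⟩
    refine ⟨c, fun i => ?_⟩
    have := congrArg (fun z : LinearMap.range M.mulVecLin => (z : ι → K) i) hc
    simp only [Submodule.coe_smul, Pi.smul_apply, smul_eq_mul, Matrix.mulVecLin_apply,
      Matrix.mulVec_single_one, Matrix.col_apply] at this
    rw [← this, mul_comm]
  choose c hc using h1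
  refine ⟨v, c, ?_⟩
  ext i j
  rw [Matrix.vecMulVec_apply, hc]

end Pivot

/-! ### Valuations -/

section Val

variable {ι K : Type*} [Fintype ι] [DecidableEq ι] [Field K]

theorem add_lt_of {a b : ℝ} {x y : WithTop ℝ} (h1 : (a : WithTop ℝ) < x) (h2 : (b : WithTop ℝ) < y) :
    ((a + b : ℝ) : WithTop ℝ) < x + y := by
  induction x using WithTop.recTopCoe with
  | top => simp
  | coe x =>
    induction y using WithTop.recTopCoe with
    | top => simp
    | coe y =>
      rw [← WithTop.coe_add, WithTop.coe_lt_coe]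
      exact add_lt_add (WithTop.coe_lt_coe.1 h1) (WithTop.coe_lt_coe.1 h2)

theorem lt_half_of {a : ℝ} {x : WithTop ℝ} (h : (a : WithTop ℝ) < x + x) :
    ((a / 2 : ℝ) : WithTop ℝ) < x := by
  induction x using WithTop.recTopCoe with
  | top => simp
  | coe x =>
    rw [← WithTop.coe_add, WithTop.coe_lt_coe] at h
    rw [WithTop.coe_lt_coe]
    linarith

theorem lt_map_prod (ν : AddValuation K (WithTop ℝ)) {κ : Type*} (s : Finset κ) (hs : s.Nonempty)
    (f : κ → K) (g : κ → ℝ) (h : ∀ i ∈ s, ((g i : ℝ) : WithTop ℝ) < ν (f i)) :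
    ((∑ i ∈ s, g i : ℝ) : WithTop ℝ) < ν (∏ i ∈ s, f i) := by
  classical
  induction hs using Finset.Nonempty.cons_induction with
  | singleton a => simpa using h a (by simp)
  | cons a s ha hs ih =>
    rw [Finset.sum_cons, Finset.prod_cons, ν.map_mul]
    refine add_lt_of (h a (by simp)) (ih fun i hi => h i ?_)
    simp [hi]

theorem pm_singleton (b : Matrix ι ι K) (i : ι) : pm b {i} = b i i := by
  haveI : Subsingleton {x // x ∈ ({i} : Finset ι)} :=
    ⟨fun x y => Subtype.ext ((Finset.mem_singleton.1 x.2).trans (Finset.mem_singleton.1 y.2).symm)⟩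
  rw [pm, Matrix.det_eq_elem_of_subsingleton _ (⟨i, by simp⟩ : {x // x ∈ ({i} : Finset ι)})]
  rfl

theorem pm_pair (b : Matrix ι ι K) {i j : ι} (hij : i ≠ j) :
    pm b {i, j} = b i i * b j j - b i j * b j i := by
  let f : Fin 2 → {x // x ∈ ({i, j} : Finset ι)} := ![⟨i, by simp⟩, ⟨j, by simp⟩]
  have hf : Function.Bijective f := by
    constructor
    · intro a c h
      fin_cases a <;> fin_cases c <;> simp_all [f]
    · rintro ⟨x, hx⟩
      rcases Finset.mem_insert.1 hx with rfl | hx
      · exact ⟨0, rfl⟩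
      · have := Finset.mem_singleton.1 hx
        subst this
        exact ⟨1, rfl⟩
  rw [pm, ← Matrix.det_submatrix_equiv_self (Equiv.ofBijective f hf), Matrix.det_fin_two]
  rfl

theorem entry_bound (ν : AddValuation K (WithTop ℝ)) (σ : K →+* K) (hσ : ∀ a, σ (σ a) = a)
    (hν : ∀ a, ν (σ a) = ν a) (b : Matrix ι ι K) (x y : ι → K)
    (hxy : b + ct σ b = Matrix.vecMulVec x y) (w : ι → ℝ)
    (h1 : ∀ i, ((-w i : ℝ) : WithTop ℝ) < ν (b i i))
    (h2 : ∀ i j, i ≠ j → ((-(w i + w j) : ℝ) : WithTop ℝ) < ν (b i i * b j j - b i j * b j i))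
    (i j : ι) : ((-(w i + w j) / 2 : ℝ) : WithTop ℝ) < ν (b i j) := by
  rcases eq_or_ne i j with rfl | hij
  · have := h1 i
    convert this using 2
    ring
  · have hr : ∀ k l, b k l + σ (b l k) = x k * y l := by
      intro k l
      have := congrFun (congrFun hxy k) l
      rwa [Matrix.add_apply, ct_apply, Matrix.vecMulVec_apply] at this
    have hrii : ∀ k, ((-w k : ℝ) : WithTop ℝ) < ν (x k * y k) := by
      intro k
      rw [← hr k k]
      exact ν.map_lt_add (h1 k) (by rw [hν]; exact h1 k)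
    have hprod : ((-(w i + w j) : ℝ) : WithTop ℝ) < ν ((x i * y j) * (x j * y i)) := by
      have : (x i * y j) * (x j * y i) = (x i * y i) * (x j * y j) := by ring
      rw [this, ν.map_mul]
      have := add_lt_of (hrii i) (hrii j)
      convert this using 2
      ring
    have hconj : ν (x j * y i) = ν (x i * y j) := by
      rw [← hr j i, ← hr i j, ← hν (b j i + σ (b i j)), map_add, hσ, add_comm]
    have hr' : ((-(w i + w j) / 2 : ℝ) : WithTop ℝ) < ν (x i * y j) := by
      apply lt_half_of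
      rw [ν.map_mul, hconj] at hprod
      exact hprod
    by_contra hcon
    rw [not_lt] at hcon
    have hlt : ν (b i j) < ν (x i * y j) := lt_of_le_of_lt hcon hr'
    have hji : ν (b j i) = ν (b i j) := by
      have h3 : b j i = σ (x i * y j - b i j) := by
        rw [← hr i j]
        simp [hσ]
      rw [h3, hν, ν.map_sub_eq_of_lt_right hlt]
    have hii := add_lt_of (h1 i) (h1 j)
    have hbb : ((-(w i + w j) : ℝ) : WithTop ℝ) < ν (b i j * b j i) := by
      have h4 : b i j * b j i = b i i * b j j - (b i i * b j j - b i j * b j i) := by ring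
      rw [h4, sub_eq_add_neg]
      refine ν.map_lt_add ?_ ?_
      · rw [ν.map_mul]
        convert hii using 2
        ring
      · rw [ν.map_neg]
        exact h2 i j hij
    rw [ν.map_mul, hji] at hbb
    have := lt_half_of hbb
    exact absurd this (not_lt.2 hcon)

theorem lt_pm (ν : AddValuation K (WithTop ℝ)) (b : Matrix ι ι K) (w : ι → ℝ)
    (h : ∀ i j, ((-(w i + w j) / 2 : ℝ) : WithTop ℝ) < ν (b i j)) (Y : Finset ι)
    (hY : Y.Nonempty) : ((-∑ i ∈ Y, w i : ℝ) : WithTop ℝ) < ν (pm b Y) := by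
  rw [pm, Matrix.det_apply']
  refine ν.map_lt_sum (WithTop.coe_ne_top) fun τ _ => ?_
  have hsign : ∀ z : K, ν (((Equiv.Perm.sign τ : ℤ) : K) * z) = ν z := by
    intro z
    rcases Int.units_eq_one_or (Equiv.Perm.sign τ) with h | h
    · rw [h]; simp
    · rw [h]; simp
  rw [hsign]
  have hne : (Finset.univ : Finset Y).Nonempty := by
    obtain ⟨y, hy⟩ := hY
    exact ⟨⟨y, hy⟩, Finset.mem_univ _⟩
  have := lt_map_prod ν Finset.univ hne
    (fun i : Y => (b.submatrix (fun i : Y => (i : ι)) fun i : Y => (i : ι)) (τ i) i)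
    (fun i : Y => -(w (τ i) + w i) / 2) (fun i _ => h _ _)
  convert this using 2
  rw [← Finset.sum_div, Finset.sum_neg_distrib, Finset.sum_add_distrib]
  have h1 : ∑ i : Y, w (τ i) = ∑ i : Y, w i :=
    Equiv.sum_comp τ (fun i : Y => w i)
  rw [h1, Finset.sum_coe_sort Y w]
  ring

/-- The main theorem: if `A + A*` has rank at most one, then the valuations of the principal
minors of `A` form a valuated Delta-matroid. -/
theorem main (ν : AddValuation K (WithTop ℝ)) (σ : K →+* K) (hσ : ∀ a, σ (σ a) = a)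
    (hν : ∀ a, ν (σ a) = ν a) (A : Matrix ι ι K) (hA : (A + ct σ A).rank ≤ 1) :
    IsValuatedDeltaMatroid (fun S => ν (pm A S)) := by
  obtain ⟨x, y, hxy⟩ := exists_vec_of_rank_le_one _ hA
  refine isValuatedDeltaMatroid_of _ fun w S T hST hmin => ?_
  by_contra hcard
  rw [not_le] at hcard
  have hSm : S ∈ minimisers (fun S => ν (pm A S)) w := by rw [hmin]; simp
  have hTm : T ∈ minimisers (fun S => ν (pm A S)) w := by rw [hmin]; simp
  have hS0 : pm A S ≠ 0 := fun h => hSm.1 (by simp [h])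
  obtain ⟨x', y', hxy'⟩ := exists_vec_pivot σ A S hS0 x y hxy
  set b := pivot A S with hb
  let w' : ι → ℝ := fun i => if i ∈ S then - w i else w i
  obtain ⟨m, hm⟩ := WithTop.ne_top_iff_exists.1 hSm.1
  simp only at hm
  have hsum : ∀ X : Finset ι, ∑ i ∈ S ∆ X, w i = ∑ i ∈ S, w i + ∑ i ∈ X, w' i := by
    intro X
    have e1 : ∑ i ∈ S ∆ X, w i = ∑ i, if i ∈ S ∆ X then w i else 0 := by
      simp [Finset.sum_ite_mem]
    have e2 : ∑ i ∈ S, w i = ∑ i, if i ∈ S then w i else 0 := by
      simp [Finset.sum_ite_mem]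
    have e3 : ∑ i ∈ X, w' i = ∑ i, if i ∈ X then w' i else 0 := by
      simp [Finset.sum_ite_mem]
    rw [e1, e2, e3, ← Finset.sum_add_distrib]
    refine Finset.sum_congr rfl fun i _ => ?_
    simp only [Finset.mem_symmDiff, w']
    by_cases hS : i ∈ S <;> by_cases hX : i ∈ X <;> simp [hS, hX]
  -- the key comparison
  have hcomp : ∀ X : Finset ι, X ≠ ∅ → X ≠ S ∆ T →
      ((-∑ i ∈ X, w' i : ℝ) : WithTop ℝ) < ν (pm b X) := by
    intro X hX0 hXY
    have hne : S ∆ X ∉ minimisers (fun S => ν (pm A S)) w := by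
      rw [hmin]
      rintro (h | h)
      · apply hX0
        have h' : X = S ∆ (S ∆ X) := (symmDiff_symmDiff_cancel_left S X).symm
        rw [h, symmDiff_self] at h'
        exact h'
      · apply hXY
        have : T = S ∆ X := (Set.mem_singleton_iff.1 h).symm
        rw [this, symmDiff_symmDiff_cancel_left]
    have hpm : ν (pm b X) + ν (pm A S) = ν (pm A (S ∆ X)) := by
      rw [← ν.map_mul, pm_pivot A S X hS0]
    rcases eq_or_ne (ν (pm b X)) ⊤ with htop | htop
    · rw [htop]; exact WithTop.coe_lt_top _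
    obtain ⟨c, hc⟩ := WithTop.ne_top_iff_exists.1 htop
    rw [← hc, ← hm, ← WithTop.coe_add] at hpm
    rw [← hc, WithTop.coe_lt_coe]
    by_contra hle
    rw [not_lt] at hle
    apply hne
    refine ⟨by beta_reduce; rw [← hpm]; exact WithTop.coe_ne_top, fun U => ?_⟩
    refine le_trans ?_ (hSm.2 U)
    beta_reduce
    rw [← hpm, ← hm, ← WithTop.coe_add, ← WithTop.coe_add, WithTop.coe_le_coe, hsum X]
    linarith
  -- equality at `X = S ∆ T`
  have hY : ν (pm b (S ∆ T)) = ((-∑ i ∈ S ∆ T, w' i : ℝ) : WithTop ℝ) := by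
    have hpm : ν (pm b (S ∆ T)) + ν (pm A S) = ν (pm A T) := by
      rw [← ν.map_mul, pm_pivot A S _ hS0, symmDiff_symmDiff_cancel_left]
    obtain ⟨t, ht⟩ := WithTop.ne_top_iff_exists.1 hTm.1
    simp only at ht
    have h1 := hSm.2 T
    have h2 := hTm.2 S
    simp only at h1 h2
    rw [← ht, ← hm, ← WithTop.coe_add, ← WithTop.coe_add, WithTop.coe_le_coe] at h1 h2
    have h3 := hsum (S ∆ T)
    rw [symmDiff_symmDiff_cancel_left] at h3
    have htop : ν (pm b (S ∆ T)) ≠ ⊤ := by
      intro h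
      rw [h, ← ht, WithTop.top_add] at hpm
      exact WithTop.coe_ne_top hpm.symm
    obtain ⟨c, hc⟩ := WithTop.ne_top_iff_exists.1 htop
    rw [← hc, ← hm, ← ht, ← WithTop.coe_add, WithTop.coe_inj] at hpm
    rw [← hc, WithTop.coe_inj]
    linarith
  have hb1 : ∀ i, ((-w' i : ℝ) : WithTop ℝ) < ν (b i i) := by
    intro i
    have := hcomp {i} (by simp) (by
      intro h
      rw [← h] at hcard
      simp at hcard)
    rwa [pm_singleton, Finset.sum_singleton] at this
  have hb2 : ∀ i j, i ≠ j →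
      ((-(w' i + w' j) : ℝ) : WithTop ℝ) < ν (b i i * b j j - b i j * b j i) := by
    intro i j hij
    have := hcomp {i, j} (by simp) (by
      intro h
      rw [← h, Finset.card_pair hij] at hcard
      omega)
    rwa [pm_pair b hij, Finset.sum_pair hij] at this
  have hent := entry_bound ν σ hσ hν b x' y' hxy' w' hb1 hb2
  have hne : (S ∆ T).Nonempty := Finset.card_pos.1 (by omega)
  have := lt_pm ν b w' hent (S ∆ T) hne
  rw [hY] at this
  exact lt_irrefl _ this

end Val

end Pool.Agent.X53.VDM
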